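import Mathlib

/-!
Official definitions for MP_56d946_al: finite invertible automata, the groups generated by their
states, and their tables.
-/

set_option autoImplicit false

namespace Pool.Agent.H82R2.IsoP

open Equiv

/-- A finite invertible automaton with `n` letters (`2 ≤ n`) and `m` states (`0 < m`): in the state
`q`, the letter `x` is replaced by the letter `out q x`, where `out q` is a permutation of the
letters, and the next state is `next q x`. -/
structure Automaton where
  n : ℕ
  m : ℕ
  two_le : 2 ≤ n
  pos : 0 < m
  next : Fin m → Fin n → Fin m
  out : Fin m → Perm (Fin n)

namespace Automaton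

variable (A : Automaton)

/-- The action of the states on words: `q (x w) = (out q x) ((next q x) w)`. -/
def act : Fin A.m → List (Fin A.n) → List (Fin A.n)
  | _, [] => []
  | q, x :: w => A.out q x :: act (A.next q x) w

/-- The inverse action. -/
def actInv : Fin A.m → List (Fin A.n) → List (Fin A.n)
  | _, [] => []
  | q, y :: w => (A.out q).symm y :: actInv (A.next q ((A.out q).symm y)) w

theorem actInv_act (q : Fin A.m) (w : List (Fin A.n)) : A.actInv q (A.act q w) = w := by
  induction w generalizing q with
  | nil => rfl
  | cons x w ih => simp [act, actInv, ih]

theorem act_actInv (q : Fin A.m) (w : List (Fin A.n)) : A.act q (A.actInv q w) = w := by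
  induction w generalizing q with
  | nil => rfl
  | cons x w ih => simp [act, actInv, ih]

/-- The permutation of the set of all words given by a state. -/
def perm (q : Fin A.m) : Perm (List (Fin A.n)) :=
  ⟨A.act q, A.actInv q, A.actInv_act q, A.act_actInv q⟩

/-- The group `G(A)` generated by the states. -/
def group : Subgroup (Perm (List (Fin A.n))) := Subgroup.closure (Set.range A.perm)

/-- The finite tables: the numbers of letters and of states, and for every state `q` the list, over
all letters `x`, of the pairs (next state, output letter). -/
def tables : ℕ × ℕ × List (List (ℕ × ℕ)) :=
  (A.n, A.m, List.ofFn fun q => List.ofFn fun x => ((A.next q x : ℕ), (A.out q x : ℕ)))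

end Automaton

/-- The groups generated by two automata are isomorphic as abstract groups. -/
def Isomorphic (A B : Automaton) : Prop := Nonempty (A.group ≃* B.group)

/-- The type of tables, the inputs of algorithms. -/
abbrev Tables : Type := ℕ × ℕ × List (List (ℕ × ℕ))

end Pool.Agent.H82R2.IsoP
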