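import Mathlib

/-!
Extension of permutations of words to words with further letters.
-/

set_option autoImplicit false

namespace Pool.Agent.H82R2.IsoP

open Equiv

section ext

variable {X Y : Type}

/-- the longest initial part with letters in `X` -/
def pre : List (X ⊕ Y) → List X
  | [] => []
  | .inl x :: w => x :: pre w
  | .inr _ :: _ => []

/-- the rest -/
def suf : List (X ⊕ Y) → List (X ⊕ Y)
  | [] => []
  | .inl _ :: w => suf w
  | .inr y :: w => .inr y :: w

theorem pre_suf (w : List (X ⊕ Y)) : pre (suf w) = [] := by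
  induction w with
  | nil => rfl
  | cons x w ih =>
    cases x with
    | inl x => exact ih
    | inr y => rfl

theorem suf_suf (w : List (X ⊕ Y)) : suf (suf w) = suf w := by
  induction w with
  | nil => rfl
  | cons x w ih =>
    cases x with
    | inl x => exact ih
    | inr y => rfl

theorem pre_append (u : List X) (w : List (X ⊕ Y)) : pre (u.map Sum.inl ++ suf w) = u := by
  induction u with
  | nil => exact pre_suf w
  | cons x u ih => rw [List.map_cons, List.cons_append, pre, ih]

theorem suf_append (u : List X) (w : List (X ⊕ Y)) : suf (u.map Sum.inl ++ suf w) = suf w := by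
  induction u with
  | nil => exact suf_suf w
  | cons x u ih => rw [List.map_cons, List.cons_append, suf, ih]

theorem pre_append_suf (w : List (X ⊕ Y)) : (pre w).map Sum.inl ++ suf w = w := by
  induction w with
  | nil => rfl
  | cons x w ih =>
    cases x with
    | inl x => rw [pre, suf, List.map_cons, List.cons_append, ih]
    | inr y => rfl

/-- Extension of permutations of words: only the longest initial part is changed. -/
def extP : Perm (List X) →* Perm (List (X ⊕ Y)) where
  toFun f := {
    toFun := fun w => (f (pre w)).map Sum.inl ++ suf w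
    invFun := fun w => (f.symm (pre w)).map Sum.inl ++ suf w
    left_inv := fun w => by
      simp only [pre_append, suf_append, Equiv.symm_apply_apply, pre_append_suf]
    right_inv := fun w => by
      simp only [pre_append, suf_append, Equiv.apply_symm_apply, pre_append_suf] }
  map_one' := by
    ext1 w
    exact pre_append_suf w
  map_mul' f g := by
    ext1 w
    change (f (g (pre w))).map Sum.inl ++ suf w =
      (f (pre ((g (pre w)).map Sum.inl ++ suf w))).map Sum.inl ++
        suf ((g (pre w)).map Sum.inl ++ suf w)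
    rw [pre_append, suf_append]

theorem extP_apply (f : Perm (List X)) (w : List (X ⊕ Y)) :
    extP f w = (f (pre w)).map Sum.inl ++ suf w := rfl

theorem extP_injective : Function.Injective (extP : Perm (List X) →* Perm (List (X ⊕ Y))) := by
  intro f g h
  ext1 u
  have h1 := congrArg (fun k : Perm (List (X ⊕ Y)) => pre (k (u.map Sum.inl ++ suf []))) h
  simp only [extP_apply, pre_append, suf_append] at h1
  exact h1

theorem extP_nil (f : Perm (List X)) (h : f [] = []) :
    (extP f : Perm (List (X ⊕ Y))) [] = [] := by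
  rw [extP_apply, pre, suf, h]; rfl

theorem extP_inr (f : Perm (List X)) (h : f [] = []) (y : Y) (w : List (X ⊕ Y)) :
    extP f (.inr y :: w) = .inr y :: w := by
  rw [extP_apply, pre, suf, h]; rfl

theorem extP_inl (f f' : Perm (List X)) (x x' : X) (h : ∀ u, f (x :: u) = x' :: f' u)
    (w : List (X ⊕ Y)) : extP f (.inl x :: w) = .inl x' :: extP f' w := by
  rw [extP_apply, extP_apply, pre, suf, h, List.map_cons, List.cons_append]

/-- Permutations acting on words whose first letter is in `Y`. -/
def yP (π : Perm Y) (g : Y → Perm (List (X ⊕ Y))) : Perm (List (X ⊕ Y)) where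
  toFun
    | [] => []
    | .inl x :: w => .inl x :: w
    | .inr y :: w => .inr (π y) :: g y w
  invFun
    | [] => []
    | .inl x :: w => .inl x :: w
    | .inr y :: w => .inr (π.symm y) :: (g (π.symm y)).symm w
  left_inv w := by
    rcases w with _ | ⟨x | y, w⟩
    · rfl
    · rfl
    · simp
  right_inv w := by
    rcases w with _ | ⟨x | y, w⟩
    · rfl
    · rfl
    · simp

theorem yP_nil (π : Perm Y) (g : Y → Perm (List (X ⊕ Y))) : yP π g [] = [] := rfl
theorem yP_inl (π : Perm Y) (g : Y → Perm (List (X ⊕ Y))) (x : X) (w : List (X ⊕ Y)) :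
    yP π g (.inl x :: w) = .inl x :: w := rfl
theorem yP_inr (π : Perm Y) (g : Y → Perm (List (X ⊕ Y))) (y : Y) (w : List (X ⊕ Y)) :
    yP π g (.inr y :: w) = .inr (π y) :: g y w := rfl

/-- words whose first letter is in `Y` -/
def isR (X Y : Type) : Set (List (X ⊕ Y)) := {w | ∃ y w', w = .inr y :: w'}

/-- permutations fixing the words whose first letter is in `Y` -/
def FR (X Y : Type) : Subgroup (Perm (List (X ⊕ Y))) := fixingSubgroup _ (isR X Y)

/-- permutations fixing all other words -/
def FL (X Y : Type) : Subgroup (Perm (List (X ⊕ Y))) := fixingSubgroup _ (isR X Y)ᶜ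

theorem mem_FR (f : Perm (List (X ⊕ Y))) : f ∈ FR X Y ↔ ∀ y w, f (.inr y :: w) = .inr y :: w := by
  unfold FR
  rw [mem_fixingSubgroup_iff]
  constructor
  · intro h y w
    exact h _ ⟨y, w, rfl⟩
  · rintro h _ ⟨y, w, rfl⟩
    exact h y w

theorem mem_FL (f : Perm (List (X ⊕ Y))) :
    f ∈ FL X Y ↔ f [] = [] ∧ ∀ x w, f (.inl x :: w) = .inl x :: w := by
  unfold FL
  rw [mem_fixingSubgroup_iff]
  constructor
  · intro h
    refine ⟨h _ ?_, fun x w => h _ ?_⟩
    · rintro ⟨y, w, h⟩; simp at h
    · rintro ⟨y, w, h⟩; simp at h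
  · rintro ⟨h1, h2⟩ w hw
    rcases w with _ | ⟨x | y, w⟩
    · exact h1
    · exact h2 x w
    · exact absurd ⟨y, w, rfl⟩ hw

theorem FR_FL_commute (f g : Perm (List (X ⊕ Y))) (hf : f ∈ FR X Y) (hg : g ∈ FL X Y) : Commute f g := by
  apply Equiv.Perm.Disjoint.commute
  rw [mem_FR] at hf
  rw [mem_FL] at hg
  intro w
  rcases w with _ | ⟨x | y, w⟩
  · exact Or.inr hg.1
  · exact Or.inr (hg.2 x w)
  · exact Or.inl (hf y w)

theorem FR_FL_disjoint (f : Perm (List (X ⊕ Y))) (hf : f ∈ FR X Y) (hg : f ∈ FL X Y) : f = 1 := by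
  rw [mem_FR] at hf
  rw [mem_FL] at hg
  ext1 w
  rcases w with _ | ⟨x | y, w⟩
  · exact hg.1
  · exact hg.2 x w
  · exact hf y w

theorem yP_mem_FL (π : Perm Y) (g : Y → Perm (List (X ⊕ Y))) : yP π g ∈ FL X Y := by
  rw [mem_FL]
  exact ⟨rfl, fun _ _ => rfl⟩

theorem extP_mem_FR (f : Perm (List X)) (h : f [] = []) : (extP f : Perm (List (X ⊕ Y))) ∈ FR X Y := by
  rw [mem_FR]
  exact extP_inr f h

end ext

end Pool.Agent.H82R2.IsoP
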