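import Mathlib
import Pool.Agent.Helper599.Source

/-!
The counter machines of `Pool.Agent.Helper599` with a little more information: the orders of the
elements simulating halting computations, and a machine whose halting problem is the one of a
partial recursive function.
-/

set_option autoImplicit false

namespace Pool.Agent.H82R2.IsoP

open Equiv Pool.Agent.Helper599.Core Pool.Agent.Helper599.Core.Sys

section

variable {Q J : Type} (M : Sys Q J)

/-- If the machine stops, the element has finite order, and all prime divisors of the order divide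
`2 * (2 * l + 1)`. -/
theorem finite_of_halts' {o : Option Q} {n : J → ℕ} (h : M.Halts o n) (p : ℕ)
    (h2p : Nat.Coprime 2 p) (hlp : Nat.Coprime (2 * M.l + 1) p) :
    ∃ m, 0 < m ∧ m.Coprime p ∧ M.W o (zz n) ^ m = 1 := by
  induction h with
  | stop n => exact ⟨2, by norm_num, h2p, M.W_none_sq _⟩
  | step q n _ ih =>
    obtain ⟨m, hm, hmp, h⟩ := ih
    refine ⟨2 * ((2 * M.l + 1) * m), by positivity,
      Nat.Coprime.mul_left h2p (Nat.Coprime.mul_left hlp hmp), ?_⟩
    apply Equiv.ext
    intro x
    rw [Perm.one_apply]
    rcases x with _ | ⟨⟨q', r, c, i⟩, w⟩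
    · have : (M.W (some q) (zz n) ^ 1) [] = [] := by rw [pow_one, W_nil]
      have h2 := pow_fix _ _ _ (2 * ((2 * M.l + 1) * m)) this
      rwa [one_mul] at h2
    · by_cases hx : q' = q ∧ r = M.res n ∧ i = M.z0
      · obtain ⟨rfl, rfl, rfl⟩ := hx
        obtain ⟨w', hw'⟩ := M.W_next_pow q' n (2 * M.l + 1 - c) c w
        have e : (⟨(c + (2 * M.l + 1 - c)) % (2 * M.l + 1), Nat.mod_lt _ (by omega)⟩ :
            Fin (2 * M.l + 1)) = ⟨0, by omega⟩ := by
          apply Fin.ext
          have := c.2
          simp only
          rw [Nat.add_sub_cancel' this.le, Nat.mod_self]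
        rw [e] at hw'
        have key : (M.W (some q') (zz n) ^ ((2 * M.l + 1) * m))
            ((q', M.res n, ⟨0, by omega⟩, M.z0) :: w') =
            (q', M.res n, ⟨0, by omega⟩, M.z0) :: w' := by
          rw [W_return_pow, h, Perm.one_apply]
        rw [mul_comm 2]
        apply pow_fix
        rw [← hw', ← Perm.mul_apply, ← pow_add, add_comm, pow_add, Perm.mul_apply] at key
        exact (M.W (some q') (zz n) ^ (2 * M.l + 1 - (c : ℕ))).injective key
      · exact pow_fix _ _ _ _ (M.W_sq_inactive q n q' r c i w hx)

end

open Turing Relation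
open Turing.PartrecToTM2 (trNat trList trNum trPosNum)
open Pool.Agent.Helper599.Source

/-- A fixed finite counter machine whose halting problem is the one of the partial recursive
function `u`. -/
theorem exists_sys3 : ∃ (Q : Type) (_ : Finite Q) (M : Sys Q Bool) (q0 : Q) (N : ℕ → ℕ),
    0 < M.l ∧ Computable N ∧ ∀ n, M.Halts (some q0) (ini (N n)) ↔ (u n).Dom := by
  classical
  obtain ⟨Λ, i1, i2, M, hM⟩ := exists_machine
  have fK : Finite PartrecToTM2.K' := by
    refine Finite.of_injective (fun k : PartrecToTM2.K' => match k with
      | .main => (0 : Fin 4) | .rev => 1 | .aux => 2 | .stack => 3) ?_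
    intro a b h
    cases a <;> cases b <;> simp_all
  have fG : Finite (TM2to1.Γ' PartrecToTM2.K' (fun _ => PartrecToTM2.Γ')) :=
    inferInstanceAs (Finite (Bool × (PartrecToTM2.K' → Option PartrecToTM2.Γ')))
  let _ : Fintype (TM2to1.Γ' PartrecToTM2.K' (fun _ => PartrecToTM2.Γ')) := Fintype.ofFinite _
  let N : ℕ → ℕ := fun n => enc (sym true .cons :: (trNat n).reverse.map (sym false))
  refine ⟨Λ, i2, sys M, default, N, ?_, ?_, ?_⟩
  · change 0 < bas _ * bas _
    unfold bas
    positivity
  · have h1 := digits_computable (fun a => kap (sym false a))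
    have h2 : Computable (fun n : ℕ => ((trNat n).map (fun a => kap (sym false a))).reverse) :=
      Primrec.list_reverse.to_comp.comp h1
    have h3 := (foldr_computable
      (bas (TM2to1.Γ' PartrecToTM2.K' (fun _ => PartrecToTM2.Γ')))).comp h2
    have h4 : Computable (fun x : ℕ => kap (sym true .cons) +
        (bas (TM2to1.Γ' PartrecToTM2.K' (fun _ => PartrecToTM2.Γ'))) * x) :=
      (Primrec.nat_add.comp (Primrec.const _)
        (Primrec.nat_mul.comp (Primrec.const _) Primrec.id)).to_comp
    refine (h4.comp h3).of_eq ?_
    intro n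
    have e : ∀ l : List PartrecToTM2.Γ', enc (l.map (sym false)) =
        (l.map (fun a => kap (sym false a))).foldr (fun d acc => d +
          (bas (TM2to1.Γ' PartrecToTM2.K' (fun _ => PartrecToTM2.Γ'))) * acc) 0 := by
      intro l
      induction l with
      | nil => rfl
      | cons a l ih =>
        simp only [List.map_cons, enc, List.foldr_cons, ih]
    simp only [N, enc]
    rw [e, List.map_reverse]
  · intro n
    rw [← hM n]

    apply halts_iff
    constructor
    · have := rep_enc (sym true .cons :: (trNat n).reverse.map (sym false))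
      have e : (Tape.mk₁ (sym true PartrecToTM2.Γ'.cons :: (trNat n).reverse.map
          (sym false))).right₀ = ListBlank.mk (sym true .cons ::
            (trNat n).reverse.map (sym false)) := by
        unfold Tape.mk₁ Tape.mk₂
        rw [Tape.mk'_right₀]
      simp only [e]
      exact this
    · exact rep_zero

/-- The complement of the domain of `u` is not recursively enumerable. -/
theorem u_not_co_re : ¬ REPred (fun n => ¬ (u n).Dom) := by
  intro h
  apply u_not_computable
  rw [ComputablePred.computable_iff_re_compl_re']
  exact ⟨u_partrec.dom_re, h⟩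

end Pool.Agent.H82R2.IsoP
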