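import Mathlib
import Pool.Agent.H82R2.IsoP.Defs
import Pool.Agent.H82R2.IsoP.Ext
import Pool.Agent.H82R2.IsoP.Mach

/-!
The automata of the reduction.
-/

set_option autoImplicit false

namespace Pool.Agent.H82R2.IsoP

open Equiv Pool.Agent.Helper599.Core Pool.Agent.Helper599.Core.Sys Pool.Agent.Helper599.Source

section vectors

/-- small vectors -/
def ev (e : Bool → Fin 3) : Bool → ℤ := fun j => ((e j : ℕ) : ℤ) - 1

/-- codes of small vectors -/
def en (n : Bool → ℤ) : Bool → Fin 3 := fun j => if n j = -1 then 0 else if n j = 1 then 2 else 1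

theorem ev_en (n : Bool → ℤ) (h : ∀ j, n j = -1 ∨ n j = 0 ∨ n j = 1) : ev (en n) = n := by
  funext j
  rcases h j with h | h | h <;> simp [ev, en, h]

theorem ev_en_zero : ev (en 0) = 0 := ev_en _ fun _ => Or.inr (Or.inl rfl)

/-- vectors on the first axis -/
def lv (k : ℤ) : Bool → ℤ := fun j => if j then k else 0

theorem lv_zero : lv 0 = 0 := by
  funext j; cases j <;> rfl

theorem lv_add (a b : ℤ) : lv (a + b) = lv a + lv b := by
  funext j; cases j <;> simp [lv]

theorem zz_ini (N : ℕ) : zz (ini N) = lv N := by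
  funext j; cases j <;> simp [ini, lv]

end vectors

section letters

variable {Q : Type} (M : Sys Q Bool)

/-- shift of the index vectors -/
def idx (i : Bool → Fin M.B) (n : Bool → ℤ) : Bool → Fin M.B := fun j => M.red ((i j : ℕ) + n j)

/-- carries -/
def kap (i : Bool → Fin M.B) (n : Bool → ℤ) : Bool → ℤ := fun j => ((i j : ℕ) + n j) / M.B

theorem idx_neg (i : Bool → Fin M.B) (n : Bool → ℤ) : idx M (idx M i n) (-n) = i := by
  funext j
  have h := (i j).2
  have h2 := M.red_val ((i j : ℕ) + n j)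
  apply M.red_eq
  simp only [idx, Pi.neg_apply]
  rw [h2, Int.emod_add_emod]
  have : ((i j : ℕ) : ℤ) + n j + -n j = (i j : ℕ) := by ring
  rw [this]
  exact Int.emod_eq_of_lt (by omega) (by omega)

theorem kap_neg (i : Bool → Fin M.B) (n : Bool → ℤ) : kap M (idx M i n) (-n) = - kap M i n := by
  funext j
  have h := (i j).2
  have h2 := M.red_val ((i j : ℕ) + n j)
  simp only [idx, kap, Pi.neg_apply]
  rw [h2]
  have h3 := Int.emod_add_mul_ediv (((i j : ℕ) : ℤ) + n j) M.B
  have h4 : (((i j : ℕ) : ℤ) + n j) % M.B + -n j =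
      (i j : ℕ) + M.B * (-((((i j : ℕ) : ℤ) + n j) / M.B)) := by linarith
  rw [h4, Int.add_mul_ediv_left _ _ (by omega), Int.ediv_eq_zero_of_lt (by omega) (by omega),
    zero_add]

theorem idx_zero (i : Bool → Fin M.B) : idx M i 0 = i := by
  funext j
  have h := (i j).2
  apply M.red_eq
  simp only [Pi.zero_apply, add_zero]
  exact Int.emod_eq_of_lt (by omega) (by omega)

theorem kap_zero (i : Bool → Fin M.B) : kap M i 0 = 0 := by
  funext j
  have h := (i j).2
  simp only [kap, Pi.zero_apply, add_zero]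
  exact Int.ediv_eq_zero_of_lt (by omega) (by omega)

/-- letters of the odometers -/
def rotP (n : Bool → ℤ) : Perm M.X where
  toFun x := (x.1, x.2.1, x.2.2.1, idx M x.2.2.2 n)
  invFun x := (x.1, x.2.1, x.2.2.1, idx M x.2.2.2 (-n))
  left_inv x := by
    obtain ⟨q, r, c, i⟩ := x
    simp only [idx_neg]
  right_inv x := by
    obtain ⟨q, r, c, i⟩ := x
    have := idx_neg M i (-n)
    rw [_root_.neg_neg] at this
    simp only [this]

open Classical in
/-- letters of the reflection -/
noncomputable def vX (x : M.X) : M.X :=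
  if ∀ j, (x.2.2.2 j : ℕ) = 0 then (x.1, x.2.1, M.neg x.2.2.1, x.2.2.2) else x

theorem vX_vX (x : M.X) : vX M (vX M x) = x := by
  by_cases h : ∀ j, (x.2.2.2 j : ℕ) = 0
  · have h1 : vX M x = (x.1, x.2.1, M.neg x.2.2.1, x.2.2.2) := if_pos h
    have h2 : vX M (x.1, x.2.1, M.neg x.2.2.1, x.2.2.2) =
      (x.1, x.2.1, M.neg (M.neg x.2.2.1), x.2.2.2) := if_pos h
    rw [h1, h2, M.neg_neg]
  · have h1 : vX M x = x := if_neg h
    rw [h1, h1]

/-- letters of the reflection -/
noncomputable def vP : Perm M.X := ⟨vX M, vX M, vX_vX M, vX_vX M⟩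

open Classical in
/-- letters of the conjugates of the toggles -/
noncomputable def aX (q : Q) (n : Bool → ℤ) (x : M.X) : M.X :=
  if x.1 = q ∧ idx M x.2.2.2 n = x.2.1 then (x.1, x.2.1, x.2.2.1.rev, x.2.2.2) else x

theorem aX_aX (q : Q) (n : Bool → ℤ) (x : M.X) : aX M q n (aX M q n x) = x := by
  by_cases h : x.1 = q ∧ idx M x.2.2.2 n = x.2.1
  · have h1 : aX M q n x = (x.1, x.2.1, x.2.2.1.rev, x.2.2.2) := if_pos h
    have h2 : aX M q n (x.1, x.2.1, x.2.2.1.rev, x.2.2.2) =
      (x.1, x.2.1, x.2.2.1.rev.rev, x.2.2.2) := if_pos h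
    rw [h1, h2, Fin.rev_rev]
  · have h1 : aX M q n x = x := if_neg h
    rw [h1, h1]

/-- letters of the conjugates of the toggles -/
noncomputable def aP (q : Q) (n : Bool → ℤ) : Perm M.X :=
  ⟨aX M q n, aX M q n, aX_aX M q n, aX_aX M q n⟩

theorem T_cons' (n : Bool → ℤ) (x : M.X) (w : List M.X) : M.T n (x :: w) =
    rotP M n x :: M.T (fun j => M.rho x.1 x.2.1 x.2.2.1 j * kap M x.2.2.2 n j) w := rfl

open Classical in
theorem V_cons' (x : M.X) (w : List M.X) : M.V (x :: w) = vP M x ::
    if ∀ j, (x.2.2.2 j : ℕ) = 0 then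
      (if (x.2.2.1 : ℕ) = 0 then M.V w else M.T (M.sig x.1 x.2.1 x.2.2.1) w) else w := by
  obtain ⟨q, r, c, i⟩ := x
  change _ = vX M (q, r, c, i) :: _
  simp only [V, vX]
  split_ifs <;> rfl

open Classical in
theorem A_cons' (q' : Q) (n : Bool → ℤ) (x : M.X) (w : List M.X) :
    M.A (some q') n (x :: w) = aP M q' n x ::
      if x.1 = q' ∧ idx M x.2.2.2 n = x.2.1 then
        (if (x.2.2.1 : ℕ) = M.l then M.U (M.nxt x.1 x.2.1) w else
          M.T (fun j => (M.rho x.1 x.2.1 x.2.2.1 j - M.rho x.1 x.2.1 x.2.2.1.rev j) *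
            kap M x.2.2.2 n j) w) else w := by
  obtain ⟨q, r, c, i⟩ := x
  change _ = aX M q' n (q, r, c, i) :: _
  simp only [aX]
  rw [A_apply, T_cons']
  change M.T (-n) (M.U (some q') ((q, r, c, idx M i n) :: _)) = _
  by_cases h : q = q' ∧ idx M i n = r
  · simp only [U, if_pos h]
    rw [T_cons']
    change (q, r, c.rev, idx M (idx M i n) (-n)) :: _ = _
    rw [idx_neg]
    congr 1
    change M.T (fun j => M.rho q r c.rev j * kap M (idx M i n) (-n) j) _ = _
    rw [kap_neg]
    by_cases hc : (c : ℕ) = M.l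
    · have hr : M.l ≤ (c.rev : ℕ) := by rw [Fin.val_rev]; omega
      rw [if_pos hc, if_pos hc, M.rho_big q r c.rev hr, M.rho_big q r c (by omega), T_zero, T_zero]
    · rw [if_neg hc, if_neg hc, ← T_add]
      congr 1
      funext j
      simp only [Pi.add_apply, Pi.neg_apply]
      ring
  · simp only [U, if_neg h]
    rw [T_cons']
    change (q, r, c, idx M (idx M i n) (-n)) :: _ = _
    rw [idx_neg]
    congr 1
    change M.T (fun j => M.rho q r c j * kap M (idx M i n) (-n) j) _ = _
    rw [kap_neg, ← T_add]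
    have : ((fun j => M.rho q r c j * (- kap M i n) j) +
        fun j => M.rho q r c j * kap M i n j) = 0 := by
      funext j
      simp only [Pi.add_apply, Pi.neg_apply, Pi.zero_apply]
      ring
    rw [this, T_zero]

theorem TP_nil (n : Bool → ℤ) : M.TP n [] = [] := rfl
theorem VP_nil : M.VP [] = [] := rfl
theorem UP_nil (o : Option Q) : M.UP o [] = [] := M.U_nil o
theorem A_nil (o : Option Q) (n : Bool → ℤ) : M.A o n [] = [] := by
  rw [A_apply, T_nil, U_nil, T_nil]

theorem A_zero (o : Option Q) : M.A o 0 = M.UP o := by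
  unfold A
  rw [TP_zero]; group

end letters

end Pool.Agent.H82R2.IsoP
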