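import Mathlib
import Pool.Agent.H82R2.IsoP.Auto

/-!
The automata of the reduction: states, transitions, outputs, and the permutations of words given by
the states.
-/

set_option autoImplicit false

namespace Pool.Agent.H82R2.IsoP

open Equiv Pool.Agent.Helper599.Core Pool.Agent.Helper599.Core.Sys Pool.Agent.Helper599.Source

/-- further letters -/
abbrev YY (p : ℕ) : Type := Bool ⊕ ZMod p

/-- kinds of the special states -/
inductive Slot : Type
  | one : Slot
  | s : Slot
  | z : Slot
  | e : Slot
  | se : Slot

/-- states which do not depend on the input -/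
inductive Fx (Q : Type) : Type
  | t (e : Bool → Fin 3) : Fx Q
  | v : Fx Q
  | u (o : Option Q) : Fx Q
  | a : Fx Q
  | x (b : Bool) : Fx Q

section auto

variable {Q : Type} (M : Sys Q Bool) (q0 : Q) (p : ℕ) (σ : Bool → Slot) (N : ℕ)

/-- all letters -/
abbrev ZL : Type := M.X ⊕ YY p

/-- all states -/
abbrev St (Q : Type) (N : ℕ) : Type := Fx Q ⊕ Fin (2 * N + 3)

/-- index of a long odometer -/
def ld (k : ℤ) : Fin (2 * N + 3) := ⟨(k + (N + 1)).toNat % (2 * N + 3), Nat.mod_lt _ (by omega)⟩

theorem ld_val (k : ℤ) (h1 : -(N + 1 : ℤ) ≤ k) (h2 : k ≤ N + 1) :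
    ((ld N k : ℕ) : ℤ) = k + (N + 1) := by
  unfold ld
  simp only
  rw [Nat.mod_eq_of_lt (by omega)]
  omega

/-- the odometer on the further letters -/
def zA : List (ZL M p) → List (ZL M p)
  | [] => []
  | .inl x :: w => .inl x :: w
  | .inr (.inr c) :: w => .inr (.inr c) :: w
  | .inr (.inl false) :: w => .inr (.inl true) :: w
  | .inr (.inl true) :: w => .inr (.inl false) :: zA w

/-- inverse of the odometer on the further letters -/
def zB : List (ZL M p) → List (ZL M p)
  | [] => []
  | .inl x :: w => .inl x :: w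
  | .inr (.inr c) :: w => .inr (.inr c) :: w
  | .inr (.inl true) :: w => .inr (.inl false) :: w
  | .inr (.inl false) :: w => .inr (.inl true) :: zB w

theorem zB_zA (w : List (ZL M p)) : zB M p (zA M p w) = w := by
  induction w with
  | nil => rfl
  | cons x w ih =>
    rcases x with x | (b | c)
    · rfl
    · cases b
      · rfl
      · simp only [zA, zB, ih]
    · rfl

theorem zA_zB (w : List (ZL M p)) : zA M p (zB M p w) = w := by
  induction w with
  | nil => rfl
  | cons x w ih =>
    rcases x with x | (b | c)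
    · rfl
    · cases b
      · simp only [zA, zB, ih]
      · rfl
    · rfl

/-- the odometer on the further letters -/
def zP : Perm (List (ZL M p)) := ⟨zA M p, zB M p, zB_zA M p, zA_zB M p⟩

/-- sections of the special element -/
noncomputable def sS : YY p → Perm (List (ZL M p))
  | .inl false => extP M.VP
  | .inl true => extP (M.A (some q0) (lv N))
  | .inr _ => 1

/-- outputs of the special states -/
def so : Slot → Perm (YY p)
  | .one => 1
  | .s => Equiv.sumCongr Equiv.boolNot (Equiv.refl _)
  | .z => Equiv.sumCongr Equiv.boolNot (Equiv.refl _)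
  | .e => Equiv.sumCongr (Equiv.refl _) (Equiv.addRight 1)
  | .se => Equiv.sumCongr Equiv.boolNot (Equiv.addRight 1)

/-- permutations of the special states -/
noncomputable def sl : Slot → Perm (List (ZL M p))
  | .one => 1
  | .s => yP (so p .s) (sS M q0 p N)
  | .z => zP M p
  | .e => yP (so p .e) (fun _ => 1)
  | .se => yP (so p .se) (sS M q0 p N)

/-- permutations of all states -/
noncomputable def sem : St Q N → Perm (List (ZL M p))
  | .inl (.t e) => extP (M.TP (ev e))
  | .inl .v => extP M.VP
  | .inl (.u o) => extP (M.UP o)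
  | .inl .a => extP (M.A (some q0) (lv N))
  | .inl (.x b) => sl M q0 p N (σ b)
  | .inr k => extP (M.TP (lv (((k : ℕ) : ℤ) - (N + 1))))

/-- outputs of the toggles -/
noncomputable def uO : Option Q → Perm M.X
  | none => 1
  | some q => aP M q 0

/-- outputs -/
noncomputable def out : St Q N → Perm (ZL M p)
  | .inl (.t e) => Equiv.sumCongr (rotP M (ev e)) (Equiv.refl _)
  | .inl .v => Equiv.sumCongr (vP M) (Equiv.refl _)
  | .inl (.u o) => Equiv.sumCongr (uO M o) (Equiv.refl _)
  | .inl .a => Equiv.sumCongr (aP M q0 (lv N)) (Equiv.refl _)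
  | .inl (.x b) => Equiv.sumCongr (Equiv.refl _) (so p (σ b))
  | .inr k => Equiv.sumCongr (rotP M (lv (((k : ℕ) : ℤ) - (N + 1)))) (Equiv.refl _)

/-- the trivial state -/
def tr : St Q N := .inl (.t (en 0))

open Classical in
/-- transitions -/
noncomputable def nxt : St Q N → ZL M p → St Q N
  | .inl (.t e), .inl x => .inl (.t (en fun j => M.rho x.1 x.2.1 x.2.2.1 j * kap M x.2.2.2 (ev e) j))
  | .inl .v, .inl x => if ∀ j, (x.2.2.2 j : ℕ) = 0 then
      (if (x.2.2.1 : ℕ) = 0 then .inl .v else .inl (.t (en (M.sig x.1 x.2.1 x.2.2.1)))) else tr N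
  | .inl (.u none), .inl _ => tr N
  | .inl (.u (some q)), .inl x => if x.1 = q ∧ x.2.2.2 = x.2.1 then
      (if (x.2.2.1 : ℕ) = M.l then .inl (.u (M.nxt x.1 x.2.1)) else tr N) else tr N
  | .inl .a, .inl x => if x.1 = q0 ∧ idx M x.2.2.2 (lv N) = x.2.1 then
      (if (x.2.2.1 : ℕ) = M.l then .inl (.u (M.nxt x.1 x.2.1)) else
        .inr (ld N ((M.rho x.1 x.2.1 x.2.2.1 true - M.rho x.1 x.2.1 x.2.2.1.rev true) *
          kap M x.2.2.2 (lv N) true))) else tr N
  | .inr k, .inl x => .inr (ld N (M.rho x.1 x.2.1 x.2.2.1 true *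
      kap M x.2.2.2 (lv (((k : ℕ) : ℤ) - (N + 1))) true))
  | .inl (.x b), .inr (.inl y) => match σ b with
      | .z => if y then .inl (.x b) else tr N
      | .s => if y then .inl .a else .inl .v
      | .se => if y then .inl .a else .inl .v
      | _ => tr N
  | _, _ => tr N

theorem rho_01 (q : Q) (r : Bool → Fin M.B) (c : Fin (2 * M.l + 1)) (j : Bool) :
    M.rho q r c j = 0 ∨ M.rho q r c j = 1 := by
  unfold rho
  split_ifs
  · right; rfl
  · left; rfl

theorem kap_small (e : Bool → Fin 3) (i : Bool → Fin M.B) (j : Bool) :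
    kap M i (ev e) j = -1 ∨ kap M i (ev e) j = 0 ∨ kap M i (ev e) j = 1 := by
  show (((i j : ℕ) : ℤ) + (((e j : ℕ) : ℤ) - 1)) / (M.B : ℤ) = -1 ∨
    (((i j : ℕ) : ℤ) + (((e j : ℕ) : ℤ) - 1)) / (M.B : ℤ) = 0 ∨
    (((i j : ℕ) : ℤ) + (((e j : ℕ) : ℤ) - 1)) / (M.B : ℤ) = 1
  have hB := M.hB
  have h1 := (i j).2
  have h2 := (e j).2
  set z := ((i j : ℕ) : ℤ) + (((e j : ℕ) : ℤ) - 1) with hz
  have h3 : -1 ≤ z := by omega
  have h4 : z ≤ M.B := by omega
  have h5 : -1 ≤ z / (M.B : ℤ) := by
    rw [Int.le_ediv_iff_mul_le (by omega)]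
    omega
  have h6 : z / (M.B : ℤ) < 2 := by
    rw [Int.ediv_lt_iff_lt_mul (by omega)]
    omega
  omega

theorem ev_en_kap (e : Bool → Fin 3) (x : M.X) :
    ev (en fun j => M.rho x.1 x.2.1 x.2.2.1 j * kap M x.2.2.2 (ev e) j) =
      fun j => M.rho x.1 x.2.1 x.2.2.1 j * kap M x.2.2.2 (ev e) j := by
  apply ev_en
  intro j
  have h := kap_small M e x.2.2.2 j
  rcases rho_01 M x.1 x.2.1 x.2.2.1 j with h2 | h2 <;> rw [h2]
  · right; left; rw [zero_mul]
  · rw [one_mul]; exact h

theorem ev_en_sig (q : Q) (r : Bool → Fin M.B) (c : Fin (2 * M.l + 1)) :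
    ev (en (M.sig q r c)) = M.sig q r c := by
  apply ev_en
  intro j
  unfold sig s
  split_ifs
  · left; rfl
  · right; left; rfl
  · right; right; rfl
  · right; left; rfl

/-- carries of the long odometers -/
theorem kap_lv (i : Bool → Fin M.B) (k : ℤ) (h1 : -(N + 1 : ℤ) ≤ k) (h2 : k ≤ N + 1) :
    -(N + 1 : ℤ) ≤ kap M i (lv k) true ∧ kap M i (lv k) true ≤ N + 1 := by
  have hB := M.hB
  have h3 := (i true).2
  have e : kap M i (lv k) true = (((i true : ℕ) : ℤ) + k) / (M.B : ℤ) := rfl
  rw [e]
  constructor
  · rw [Int.le_ediv_iff_mul_le (by omega)]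
    nlinarith
  · have : (((i true : ℕ) : ℤ) + k) / (M.B : ℤ) < N + 2 := by
      rw [Int.ediv_lt_iff_lt_mul (by omega)]
      nlinarith
    omega

theorem kap_lv_nonneg (i : Bool → Fin M.B) :
    0 ≤ kap M i (lv N) true ∧ kap M i (lv N) true ≤ N + 1 := by
  refine ⟨?_, (kap_lv M N i N (by omega) (by omega)).2⟩
  have hB := M.hB
  have e : kap M i (lv N) true = (((i true : ℕ) : ℤ) + N) / (M.B : ℤ) := rfl
  rw [e]
  positivity

theorem kap_lv_false (i : Bool → Fin M.B) (k : ℤ) : kap M i (lv k) false = 0 := by
  have h3 := (i false).2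
  have e : kap M i (lv k) false = (((i false : ℕ) : ℤ) + 0) / (M.B : ℤ) := rfl
  rw [e, add_zero]
  exact Int.ediv_eq_zero_of_lt (by omega) (by omega)

theorem mul_kap_lv (f : Bool → ℤ) (i : Bool → Fin M.B) (k : ℤ) :
    (fun j => f j * kap M i (lv k) j) = lv (f true * kap M i (lv k) true) := by
  funext j
  cases j
  · rw [kap_lv_false, mul_zero]; rfl
  · rfl

theorem sem_tr : sem M q0 p σ N (tr N) = 1 := by
  show (extP (M.TP (ev (en 0))) : Perm (List (ZL M p))) = 1
  rw [ev_en_zero, TP_zero, map_one]

/-- The recursion for the permutations of the states. -/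
theorem sem_cons (s : St Q N) (z : ZL M p) (w : List (ZL M p)) :
    sem M q0 p σ N s (z :: w) = out M q0 p σ N s z :: sem M q0 p σ N (nxt M q0 p σ N s z) w := by
  classical
  have htr : ∀ w, sem M q0 p σ N (tr N) w = w := fun w => by rw [sem_tr]; rfl
  rcases s with (e | _ | o | _ | b) | k
  · -- small odometers
    rcases z with x | y
    · refine extP_inl _ (M.TP (ev (en fun j =>
        M.rho x.1 x.2.1 x.2.2.1 j * kap M x.2.2.2 (ev e) j))) _ _ ?_ w
      intro u
      rw [ev_en_kap]
      exact T_cons' M _ x u
    · rw [show nxt M q0 p σ N (.inl (.t e)) (.inr y) = tr N from rfl, htr]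
      exact extP_inr _ (TP_nil M _) _ _
  · -- reflection
    rcases z with x | y
    · by_cases h1 : ∀ j, (x.2.2.2 j : ℕ) = 0
      · by_cases h2 : (x.2.2.1 : ℕ) = 0
        · rw [show nxt M q0 p σ N (.inl .v) (.inl x) = .inl .v by
            simp only [nxt, if_pos h1, if_pos h2]]
          refine extP_inl _ M.VP _ _ ?_ w
          intro u
          have := V_cons' M x u
          rw [if_pos h1, if_pos h2] at this
          exact this
        · rw [show nxt M q0 p σ N (.inl .v) (.inl x) = .inl (.t (en (M.sig x.1 x.2.1 x.2.2.1))) by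
            simp only [nxt, if_pos h1, if_neg h2]]
          refine extP_inl _ (M.TP (ev (en (M.sig x.1 x.2.1 x.2.2.1)))) _ _ ?_ w
          intro u
          have := V_cons' M x u
          rw [if_pos h1, if_neg h2] at this
          rw [ev_en_sig]
          exact this
      · rw [show nxt M q0 p σ N (.inl .v) (.inl x) = tr N by simp only [nxt, if_neg h1], htr]
        have h3 := extP_inl (Y := YY p) M.VP 1 x (vP M x) (fun u => by
          have := V_cons' M x u
          rw [if_neg h1] at this
          exact this) w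
        rw [map_one] at h3
        exact h3
    · rw [show nxt M q0 p σ N (.inl .v) (.inr y) = tr N from rfl, htr]
      exact extP_inr _ (VP_nil M) _ _
  · -- toggles
    rcases z with x | y
    · cases o with
      | none =>
        rw [show nxt M q0 p σ N (.inl (.u none)) (.inl x) = tr N from rfl, htr]
        show (extP (M.UP none) : Perm (List (ZL M p))) _ = _
        rw [M.UP_none, map_one]; rfl
      | some q =>
        have h0 := fun u => A_cons' M q 0 x u
        have e0 : M.A (some q) 0 = M.UP (some q) := A_zero M _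
        have e1 : ∀ u, (M.UP (some q)) u = M.A (some q) 0 u := fun u => by rw [e0]
        by_cases h1 : x.1 = q ∧ x.2.2.2 = x.2.1
        · have h1' : x.1 = q ∧ idx M x.2.2.2 0 = x.2.1 := by rw [idx_zero]; exact h1
          by_cases h2 : (x.2.2.1 : ℕ) = M.l
          · rw [show nxt M q0 p σ N (.inl (.u (some q))) (.inl x) = .inl (.u (M.nxt x.1 x.2.1)) by
              simp only [nxt, if_pos h1, if_pos h2]]
            refine extP_inl _ (M.UP (M.nxt x.1 x.2.1)) _ _ ?_ w
            intro u
            have := h0 u
            rw [if_pos h1', if_pos h2] at this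
            rw [e1]
            exact this
          · rw [show nxt M q0 p σ N (.inl (.u (some q))) (.inl x) = tr N by
              simp only [nxt, if_pos h1, if_neg h2], htr]
            have h3 := extP_inl (Y := YY p) (M.UP (some q)) 1 x (aP M q 0 x) (fun u => by
              have := h0 u
              rw [if_pos h1', if_neg h2] at this
              have e2 : (fun j => (M.rho x.1 x.2.1 x.2.2.1 j - M.rho x.1 x.2.1 x.2.2.1.rev j) *
                kap M x.2.2.2 0 j) = 0 := by
                funext j; rw [kap_zero]; simp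
              rw [e2, T_zero] at this
              rw [e1]
              exact this) w
            rw [map_one] at h3
            exact h3
        · have h1' : ¬ (x.1 = q ∧ idx M x.2.2.2 0 = x.2.1) := by rw [idx_zero]; exact h1
          rw [show nxt M q0 p σ N (.inl (.u (some q))) (.inl x) = tr N by
              simp only [nxt, if_neg h1], htr]
          have h3 := extP_inl (Y := YY p) (M.UP (some q)) 1 x (aP M q 0 x) (fun u => by
            have := h0 u
            rw [if_neg h1'] at this
            rw [e1]
            exact this) w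
          rw [map_one] at h3
          exact h3
    · rw [show nxt M q0 p σ N (.inl (.u o)) (.inr y) = tr N by cases o <;> rfl, htr]
      exact extP_inr _ (UP_nil M o) _ _
  · -- conjugate
    rcases z with x | y
    · have h0 := fun u => A_cons' M q0 (lv N) x u
      by_cases h1 : x.1 = q0 ∧ idx M x.2.2.2 (lv N) = x.2.1
      · by_cases h2 : (x.2.2.1 : ℕ) = M.l
        · rw [show nxt M q0 p σ N (.inl .a) (.inl x) = .inl (.u (M.nxt x.1 x.2.1)) by
              simp only [nxt, if_pos h1, if_pos h2]]
          refine extP_inl _ (M.UP (M.nxt x.1 x.2.1)) _ _ ?_ w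
          intro u
          have := h0 u
          rw [if_pos h1, if_pos h2] at this
          exact this
        · rw [show nxt M q0 p σ N (.inl .a) (.inl x) =
            .inr (ld N ((M.rho x.1 x.2.1 x.2.2.1 true - M.rho x.1 x.2.1 x.2.2.1.rev true) *
              kap M x.2.2.2 (lv N) true)) by simp only [nxt, if_pos h1, if_neg h2]]
          refine extP_inl _ (M.TP (lv _)) _ _ ?_ w
          intro u
          have := h0 u
          rw [if_pos h1, if_neg h2] at this
          rw [mul_kap_lv M (fun j => M.rho x.1 x.2.1 x.2.2.1 j - M.rho x.1 x.2.1 x.2.2.1.rev j)]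
            at this
          refine this.trans ?_
          congr 2
          have hk := kap_lv_nonneg M N x.2.2.2
          have e3 : ((ld N ((M.rho x.1 x.2.1 x.2.2.1 true - M.rho x.1 x.2.1 x.2.2.1.rev true) *
              kap M x.2.2.2 (lv N) true) : ℕ) : ℤ) - (N + 1) =
              (M.rho x.1 x.2.1 x.2.2.1 true - M.rho x.1 x.2.1 x.2.2.1.rev true) *
              kap M x.2.2.2 (lv N) true := by
            rw [ld_val]
            · ring
            · rcases rho_01 M x.1 x.2.1 x.2.2.1 true with h5 | h5 <;>
              rcases rho_01 M x.1 x.2.1 x.2.2.1.rev true with h6 | h6 <;> rw [h5, h6] <;> omega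
            · rcases rho_01 M x.1 x.2.1 x.2.2.1 true with h5 | h5 <;>
              rcases rho_01 M x.1 x.2.1 x.2.2.1.rev true with h6 | h6 <;> rw [h5, h6] <;> omega
          rw [e3]
      · rw [show nxt M q0 p σ N (.inl .a) (.inl x) = tr N by simp only [nxt, if_neg h1], htr]
        have h3 := extP_inl (Y := YY p) (M.A (some q0) (lv N)) 1 x (aP M q0 (lv N) x) (fun u => by
            have := h0 u
            rw [if_neg h1] at this
            exact this) w
        rw [map_one] at h3
        exact h3
    · rw [show nxt M q0 p σ N (.inl .a) (.inr y) = tr N from rfl, htr]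
      exact extP_inr _ (A_nil M _ _) _ _
  · -- special states
    show sl M q0 p N (σ b) (z :: w) = _
    rcases z with x | (y | c)
    · rw [show nxt M q0 p σ N (.inl (.x b)) (.inl x) = tr N from rfl, htr]
      show _ = .inl x :: w
      cases σ b <;> rfl
    · show _ = (Sum.inr (so p (σ b) (.inl y)) : ZL M p) :: _
      have hn : nxt M q0 p σ N (.inl (.x b)) (.inr (.inl y)) = match σ b with
        | .z => if y then .inl (.x b) else tr N
        | .s => if y then .inl .a else .inl .v
        | .se => if y then .inl .a else .inl .v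
        | _ => tr N := rfl
      rw [hn]
      have hx : sem M q0 p σ N (.inl (.x b)) = sl M q0 p N (σ b) := rfl
      cases hσ : σ b with
      | one => simp only; rw [htr]; rfl
      | e => simp only; rw [htr]; rfl
      | s => cases y <;> rfl
      | se => cases y <;> rfl
      | z =>
        rw [hσ] at hx
        cases y
        · simp only [Bool.false_eq_true, if_false]; rw [htr]; rfl
        · simp only [if_true]; rw [hx]; rfl
    · show _ = (Sum.inr (so p (σ b) (.inr c)) : ZL M p) :: _
      have hn : nxt M q0 p σ N (.inl (.x b)) (.inr (.inr c)) = tr N := rfl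
      rw [hn, htr]
      cases σ b <;> rfl
  · -- long odometers
    rcases z with x | y
    · refine extP_inl _ (M.TP (lv _)) _ _ ?_ w
      intro u
      have h := T_cons' M (lv (((k : ℕ) : ℤ) - (N + 1))) x u
      rw [mul_kap_lv M (fun j => M.rho x.1 x.2.1 x.2.2.1 j)] at h
      refine h.trans ?_
      congr 2
      have hk := k.2
      have hk2 := kap_lv M N x.2.2.2 (((k : ℕ) : ℤ) - (N + 1)) (by omega) (by omega)
      have e3 : ((ld N (M.rho x.1 x.2.1 x.2.2.1 true *
              kap M x.2.2.2 (lv (((k : ℕ) : ℤ) - (N + 1))) true) : ℕ) : ℤ) - (N + 1) =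
              M.rho x.1 x.2.1 x.2.2.1 true *
              kap M x.2.2.2 (lv (((k : ℕ) : ℤ) - (N + 1))) true := by
        rw [ld_val]
        · ring
        · rcases rho_01 M x.1 x.2.1 x.2.2.1 true with h5 | h5 <;> rw [h5] <;> omega
        · rcases rho_01 M x.1 x.2.1 x.2.2.1 true with h5 | h5 <;> rw [h5] <;> omega
      rw [e3]
    · rw [show nxt M q0 p σ N (.inr k) (.inr y) = tr N from rfl, htr]
      exact extP_inr _ (TP_nil M _) _ _

end auto

end Pool.Agent.H82R2.IsoP
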