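import Mathlib

/-!
Group theory for the isomorphism problem of automaton groups: direct products of commuting
subgroups and numbers of homomorphisms.
-/

set_option autoImplicit false

namespace Pool.Agent.H82R2.IsoP

/-- The join of commuting subgroups with trivial intersection is their direct product. -/
theorem sup_equiv_prod {G : Type*} [Group G] (H K : Subgroup G)
    (hc : ∀ h ∈ H, ∀ k ∈ K, Commute h k) (hd : ∀ g ∈ H, g ∈ K → g = 1) :
    Nonempty (↥(H ⊔ K) ≃* ↥H × ↥K) := by
  have comm : ∀ (h : H) (k : K), Commute (H.subtype h) (K.subtype k) :=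
    fun h k => hc h h.2 k k.2
  have hinj : Function.Injective (MonoidHom.noncommCoprod H.subtype K.subtype comm) := by
    rw [MonoidHom.noncommCoprod_injective]
    refine ⟨H.subtype_injective, K.subtype_injective, ?_⟩
    rw [Subgroup.range_subtype, Subgroup.range_subtype, Subgroup.disjoint_def]
    intro x hx hy
    exact hd x hx hy
  have hr : (MonoidHom.noncommCoprod H.subtype K.subtype comm).range = H ⊔ K := by
    rw [MonoidHom.noncommCoprod_range, Subgroup.range_subtype, Subgroup.range_subtype]
  exact ⟨((MonoidHom.ofInjective hinj).trans (MulEquiv.subgroupCongr hr)).symm⟩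

/-- The number of homomorphisms. -/
noncomputable def nh (G C : Type*) [Group G] [CommGroup C] : ℕ := Nat.card (G →* C)

theorem nh_congr {G K : Type*} [Group G] [Group K] (e : G ≃* K) (C : Type*) [CommGroup C] :
    nh G C = nh K C := by
  refine Nat.card_congr ⟨fun f => f.comp e.symm.toMonoidHom, fun f => f.comp e.toMonoidHom, ?_, ?_⟩
  · intro f; ext x; simp
  · intro f; ext x; simp

theorem nh_prod (G K C : Type*) [Group G] [Group K] [CommGroup C] :
    nh (G × K) C = nh G C * nh K C := by
  unfold nh
  rw [← Nat.card_prod]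
  refine Nat.card_congr ⟨fun f => (f.comp (MonoidHom.inl G K), f.comp (MonoidHom.inr G K)),
    fun p => p.1.coprod p.2, ?_, ?_⟩
  · intro f
    ext ⟨x, y⟩
    simp
  · rintro ⟨f, g⟩
    ext x <;> simp

theorem finite_hom (G C : Type*) [Group G] [Group.FG G] [CommGroup C] [Finite C] :
    Finite (G →* C) := by
  obtain ⟨S, hS, hf⟩ := Group.fg_iff.1 (inferInstance : Group.FG G)
  have : Finite S := hf
  refine Finite.of_injective (fun (f : G →* C) (s : S) => f s) ?_
  intro f g h
  refine MonoidHom.eq_of_eqOn_dense hS ?_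
  intro x hx
  exact congrFun h ⟨x, hx⟩

theorem nh_pos (G C : Type*) [Group G] [Group.FG G] [CommGroup C] [Finite C] : 0 < nh G C := by
  have := finite_hom G C
  exact Nat.card_pos

theorem nh_int (C : Type*) [CommGroup C] : nh (Multiplicative ℤ) C = Nat.card C :=
  Nat.card_congr (zpowersHom C).symm

theorem nh_coprime (K C : Type*) [Group K] [Finite K] [CommGroup C] [Finite C]
    (h : (Nat.card K).Coprime (Nat.card C)) : nh K C = 1 := by
  unfold nh
  have : Subsingleton (K →* C) := by
    constructor
    intro f g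
    have key : ∀ f : K →* C, ∀ k, f k = 1 := by
      intro f k
      have h1 : orderOf (f k) ∣ Nat.card K := (orderOf_map_dvd f k).trans (orderOf_dvd_natCard k)
      have h2 : orderOf (f k) ∣ Nat.card C := orderOf_dvd_natCard _
      have h3 : orderOf (f k) ∣ 1 := by
        have := Nat.dvd_gcd h1 h2
        rwa [h] at this
      rw [Nat.dvd_one, orderOf_eq_one_iff] at h3
      exact h3
    ext k
    rw [key f, key g]
  have : Unique (K →* C) := Unique.mk' _
  exact Nat.card_unique

/-- A direct product with a finite group is not one with an infinite cyclic group. -/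
theorem not_iso_of_finite (H K : Type*) [Group H] [Group.FG H] [Group K] [Finite K] :
    ¬ Nonempty (H × K ≃* H × Multiplicative ℤ) := by
  rintro ⟨e⟩
  have hK : 0 < Nat.card K := Nat.card_pos
  have : NeZero (Nat.card K + 1) := ⟨by omega⟩
  have hC : Nat.card (Multiplicative (ZMod (Nat.card K + 1))) = Nat.card K + 1 := by
    rw [Nat.card_congr Multiplicative.toAdd, Nat.card_zmod]
  have hfin : Finite (Multiplicative (ZMod (Nat.card K + 1))) :=
    inferInstanceAs (Finite (ZMod (Nat.card K + 1)))
  have h := nh_congr e (Multiplicative (ZMod (Nat.card K + 1)))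
  rw [nh_prod, nh_prod, nh_int, nh_coprime K _ (by rw [hC]; simp), hC, mul_one] at h
  have hp := nh_pos H (Multiplicative (ZMod (Nat.card K + 1)))
  nlinarith

/-- A finite cyclic factor of order at least two is detected. -/
theorem not_iso_of_cyclic (H P : Type*) [Group H] [Group.FG H] [Group P] [IsCyclic P] {p : ℕ}
    (hp : 1 < p) (hP : Nat.card P = p) :
    ¬ Nonempty (H × Multiplicative ℤ ≃* H × (Multiplicative ℤ × P)) := by
  rintro ⟨e⟩
  have : NeZero p := ⟨by omega⟩
  have hC : Nat.card (Multiplicative (ZMod p)) = p := by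
    rw [Nat.card_congr Multiplicative.toAdd, Nat.card_zmod]
  have hfin : Finite (Multiplicative (ZMod p)) := inferInstanceAs (Finite (ZMod p))
  have hPf : Finite P := Nat.finite_of_card_ne_zero (by omega)
  have h := nh_congr e (Multiplicative (ZMod p))
  rw [nh_prod, nh_prod, nh_prod, nh_int, hC] at h
  have hpos := nh_pos H (Multiplicative (ZMod p))
  have h2 : 1 < nh P (Multiplicative (ZMod p)) := by
    have : Finite (P →* Multiplicative (ZMod p)) := finite_hom _ _
    have : IsCyclic (Multiplicative (ZMod p)) := inferInstance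
    let i : P ≃* Multiplicative (ZMod p) := mulEquivOfCyclicCardEq (hP.trans hC.symm)
    unfold nh
    rw [Finite.one_lt_card_iff_nontrivial]
    refine ⟨⟨i.toMonoidHom, 1, ?_⟩⟩
    intro h3
    have h4 : ∀ x : P, i x = 1 := fun x => DFunLike.congr_fun h3 x
    have h5 : Subsingleton P := ⟨fun x y => i.injective ((h4 x).trans (h4 y).symm)⟩
    have h6 : Nat.card P ≤ 1 := Finite.card_le_one_iff_subsingleton.2 h5
    omega
  have h3 : nh H (Multiplicative (ZMod p)) * p * 1 =
      nh H (Multiplicative (ZMod p)) * p * nh P (Multiplicative (ZMod p)) := by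
    rw [mul_one]
    calc _ = _ := h
      _ = _ := by ring
  have h4 := Nat.eq_of_mul_eq_mul_left (by positivity) h3
  omega

/-- infinite cyclic subgroups -/
theorem zpowers_int {G : Type*} [Group G] (s : G) (h : ∀ k : ℕ, 0 < k → s ^ k ≠ 1) :
    Nonempty (↥(Subgroup.zpowers s) ≃* Multiplicative ℤ) := by
  have h0 : Function.Injective (zpowersHom G s) := by
    rw [injective_iff_map_eq_one]
    intro k hk
    rw [zpowersHom_apply] at hk
    have h1 : orderOf s = 0 := by
      rw [orderOf_eq_zero_iff, isOfFinOrder_iff_pow_eq_one]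
      rintro ⟨n, hn, h2⟩
      exact h n hn h2
    have h2 := orderOf_dvd_iff_zpow_eq_one.2 hk
    rw [h1] at h2
    have h3 : Multiplicative.toAdd k = 0 := by simpa using h2
    exact Multiplicative.toAdd.injective h3
  have hr : (zpowersHom G s).range = Subgroup.zpowers s := by
    ext x
    simp only [MonoidHom.mem_range, zpowersHom_apply, Subgroup.mem_zpowers_iff]
    constructor
    · rintro ⟨k, hk⟩; exact ⟨_, hk⟩
    · rintro ⟨k, hk⟩; exact ⟨Multiplicative.ofAdd k, hk⟩
  exact ⟨((MonoidHom.ofInjective h0).trans (MulEquiv.subgroupCongr hr)).symm⟩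

/-- commuting elements of coprime orders -/
theorem closure_coprime {G : Type*} [Group G] (s t : G) (hc : Commute s t) (m p : ℕ)
    (hs : s ^ m = 1) (ht : t ^ p = 1) (h : m.Coprime p) :
    Subgroup.zpowers (s * t) = Subgroup.zpowers s ⊔ Subgroup.zpowers t := by
  have h1 : (s * t) ^ m = t ^ m := by rw [hc.mul_pow, hs, one_mul]
  have h2 : t ∈ Subgroup.zpowers (s * t) := by
    have hb := Nat.gcd_eq_gcd_ab m p
    rw [h] at hb
    have h3 : t = (t ^ m) ^ (Nat.gcdA m p) * (t ^ p) ^ (Nat.gcdB m p) := by
      rw [← zpow_natCast t m, ← zpow_natCast t p, ← zpow_mul, ← zpow_mul, ← zpow_add]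
      have : (m : ℤ) * m.gcdA p + p * m.gcdB p = 1 := by rw [← hb]; rfl
      rw [this, zpow_one]
    rw [ht, one_zpow, mul_one, ← h1] at h3
    have h5 : ((s * t) ^ m) ^ (Nat.gcdA m p) ∈ Subgroup.zpowers (s * t) :=
      Subgroup.zpow_mem _ (Subgroup.pow_mem _ (Subgroup.mem_zpowers (s * t)) m) _
    exact (congrArg (fun x => x ∈ Subgroup.zpowers (s * t)) h3).mpr h5
  apply le_antisymm
  · rw [Subgroup.zpowers_le]
    exact mul_mem (Subgroup.mem_sup_left (Subgroup.mem_zpowers s))
      (Subgroup.mem_sup_right (Subgroup.mem_zpowers t))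
  · refine sup_le ?_ ?_
    · rw [Subgroup.zpowers_le]
      have h4 : (s * t) * t⁻¹ ∈ Subgroup.zpowers (s * t) :=
        mul_mem (Subgroup.mem_zpowers _) (inv_mem h2)
      rwa [mul_inv_cancel_right] at h4
    · rw [Subgroup.zpowers_le]
      exact h2

end Pool.Agent.H82R2.IsoP
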