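import Mathlib
import Pool.Agent.H82R2.IsoP.Auto2
import Pool.Agent.H82R2.IsoP.Group

/-!
The structure of the groups of the automata of the reduction.
-/

set_option autoImplicit false

namespace Pool.Agent.H82R2.IsoP

open Equiv Pool.Agent.Helper599.Core Pool.Agent.Helper599.Core.Sys Pool.Agent.Helper599.Source

section struct

variable {Q : Type} (M : Sys Q Bool) (q0 : Q) (p : ℕ) (σ : Bool → Slot) (N : ℕ)

/-- generators of the fixed factor -/
noncomputable def HS : Set (Perm (List (ZL M p))) :=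
  (Set.range (fun e => extP (M.TP (ev e))) ∪ {extP M.VP}) ∪ Set.range (fun o => extP (M.UP o))

/-- the fixed factor -/
noncomputable def HH : Subgroup (Perm (List (ZL M p))) := Subgroup.closure (HS M p)

theorem HH_fg [Finite Q] : Group.FG (HH M p) := by
  have : Finite (HS M p) := by
    unfold HS
    refine Set.Finite.to_subtype ?_
    refine ((Set.finite_range _).union (Set.finite_singleton _)).union (Set.finite_range _)
  exact Group.closure_finite_fg _

theorem T_small_mem (e : Bool → Fin 3) : extP (M.TP (ev e)) ∈ HH M p :=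
  Subgroup.subset_closure (Or.inl (Or.inl ⟨e, rfl⟩))

theorem V_mem : extP M.VP ∈ HH M p := Subgroup.subset_closure (Or.inl (Or.inr rfl))

theorem U_mem (o : Option Q) : extP (M.UP o) ∈ HH M p := Subgroup.subset_closure (Or.inr ⟨o, rfl⟩)

theorem TP_lv (k : ℤ) : M.TP (lv k) = (M.TP (lv 1)) ^ k := by
  induction k using Int.induction_on with
  | zero => rw [zpow_zero, lv_zero, TP_zero]
  | succ k ih => rw [lv_add, TP_add, ih, zpow_add, zpow_one]
  | pred k ih =>
    have h : M.TP (lv (-(k : ℤ) - 1)) * M.TP (lv 1) = M.TP (lv (-(k : ℤ))) := by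
      rw [← TP_add, ← lv_add, sub_add_cancel]
    rw [zpow_sub, zpow_one, ← ih, ← h, mul_inv_cancel_right]

theorem T_mem (k : ℤ) : extP (M.TP (lv k)) ∈ HH M p := by
  rw [TP_lv, map_zpow]
  refine Subgroup.zpow_mem _ ?_ _
  have h : lv 1 = ev (en (lv 1)) := by
    rw [ev_en]
    intro j
    cases j
    · right; left; rfl
    · right; right; rfl
  rw [h]
  exact T_small_mem M p _

theorem A_mem (n : ℤ) (o : Option Q) : extP (M.A o (lv n)) ∈ HH M p := by
  unfold A
  rw [map_mul, map_mul, map_inv]
  exact mul_mem (mul_mem (inv_mem (T_mem M p n)) (U_mem M p o)) (T_mem M p n)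

/-- The group generated by the states. -/
theorem closure_sem : Subgroup.closure (Set.range (sem M q0 p σ N)) =
    HH M p ⊔ Subgroup.closure (Set.range (fun b => sl M q0 p N (σ b))) := by
  apply le_antisymm
  · rw [Subgroup.closure_le]
    rintro _ ⟨s, rfl⟩
    rcases s with (e | _ | o | _ | b) | k
    · exact Subgroup.mem_sup_left (T_small_mem M p e)
    · exact Subgroup.mem_sup_left (V_mem M p)
    · exact Subgroup.mem_sup_left (U_mem M p o)
    · exact Subgroup.mem_sup_left (A_mem M p N _)
    · exact Subgroup.mem_sup_right (Subgroup.subset_closure ⟨b, rfl⟩)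
    · exact Subgroup.mem_sup_left (T_mem M p _)
  · refine sup_le ?_ ?_
    · unfold HH
      rw [Subgroup.closure_le]
      rintro _ ((⟨e, rfl⟩ | rfl) | ⟨o, rfl⟩)
      · exact Subgroup.subset_closure ⟨.inl (.t e), rfl⟩
      · exact Subgroup.subset_closure ⟨.inl .v, rfl⟩
      · exact Subgroup.subset_closure ⟨.inl (.u o), rfl⟩
    · rw [Subgroup.closure_le]
      rintro _ ⟨b, rfl⟩
      exact Subgroup.subset_closure ⟨.inl (.x b), rfl⟩

theorem HH_le : HH M p ≤ FR M.X (YY p) := by
  unfold HH
  rw [Subgroup.closure_le]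
  rintro _ ((⟨e, rfl⟩ | rfl) | ⟨o, rfl⟩)
  · exact extP_mem_FR _ (TP_nil M _)
  · exact extP_mem_FR _ (VP_nil M)
  · exact extP_mem_FR _ (UP_nil M o)

theorem zP_mem : zP M p ∈ FL M.X (YY p) := by
  rw [mem_FL]
  exact ⟨rfl, fun _ _ => rfl⟩

theorem sl_mem (t : Slot) : sl M q0 p N t ∈ FL M.X (YY p) := by
  cases t with
  | one => exact one_mem _
  | s => exact yP_mem_FL _ _
  | z => exact zP_mem M p
  | e => exact yP_mem_FL _ _
  | se => exact yP_mem_FL _ _

theorem prod_iso (K : Subgroup (Perm (List (ZL M p)))) (hK : K ≤ FL M.X (YY p)) :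
    Nonempty (↥(HH M p ⊔ K) ≃* ↥(HH M p) × ↥K) :=
  sup_equiv_prod _ _ (fun h hh k hk => FR_FL_commute h k (HH_le M p hh) (hK hk))
    (fun g hg hk => FR_FL_disjoint g (HH_le M p hg) (hK hk))

end struct

section special

variable {Q : Type} (M : Sys Q Bool) (q0 : Q) (p : ℕ) (N : ℕ)

/-- the special element -/
noncomputable abbrev eS : Perm (List (ZL M p)) := sl M q0 p N .s
/-- the cyclic element -/
noncomputable abbrev eE : Perm (List (ZL M p)) := sl M q0 p N .e
/-- their product -/
noncomputable abbrev eSE : Perm (List (ZL M p)) := sl M q0 p N .se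
/-- the odometer -/
noncomputable abbrev eZ : Perm (List (ZL M p)) := sl M q0 p N .z

theorem eSE_eq : eSE M q0 p N = eS M q0 p N * eE M q0 p N := by
  ext1 w
  rcases w with _ | ⟨x | (y | c), w⟩
  · rfl
  · rfl
  · rfl
  · rfl

theorem eS_eE_disjoint : Perm.Disjoint (eS M q0 p N) (eE M q0 p N) := by
  intro w
  rcases w with _ | ⟨x | (y | c), w⟩
  · left; rfl
  · left; rfl
  · right; rfl
  · left; rfl

theorem eE_pow (k : ℕ) (c : ZMod p) (w : List (ZL M p)) :
    (eE M q0 p N ^ k) (.inr (.inr c) :: w) = .inr (.inr (c + k)) :: w := by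
  induction k with
  | zero => simp
  | succ k ih =>
    rw [pow_succ', Perm.mul_apply, ih]
    push_cast
    rw [← add_assoc]
    rfl

theorem eE_pow_eq_one (k : ℕ) : eE M q0 p N ^ k = 1 ↔ (k : ZMod p) = 0 := by
  constructor
  · intro h
    have h1 := eE_pow M q0 p N k 0 []
    rw [h, Perm.one_apply] at h1
    simp at h1
    exact h1.symm
  · intro h
    ext1 w
    rcases w with _ | ⟨x | (y | c), w⟩
    · exact Perm.pow_apply_eq_self_of_apply_eq_self (f := eE M q0 p N) rfl k
    · exact Perm.pow_apply_eq_self_of_apply_eq_self (f := eE M q0 p N) rfl k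
    · exact Perm.pow_apply_eq_self_of_apply_eq_self (f := eE M q0 p N) rfl k
    · rw [eE_pow, h, add_zero]; rfl

theorem orderOf_eE : orderOf (eE M q0 p N) = p := by
  apply Nat.dvd_antisymm
  · rw [orderOf_dvd_iff_pow_eq_one, eE_pow_eq_one]
    simp
  · have h := pow_orderOf_eq_one (eE M q0 p N)
    rw [eE_pow_eq_one, ZMod.natCast_eq_zero_iff] at h
    exact h

theorem eS_sq_false (k : ℕ) (w : List (ZL M p)) :
    ((eS M q0 p N ^ 2) ^ k) (.inr (.inl false) :: w) =
      .inr (.inl false) ::
        (((extP (M.A (some q0) (lv N)) * extP M.VP : Perm (List (ZL M p)))) ^ k) w := by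
  induction k with
  | zero => rfl
  | succ k ih =>
    have h : (extP (M.A (some q0) (lv N)) * extP M.VP : Perm (List (ZL M p))) ^ (k + 1) =
      (extP (M.A (some q0) (lv N)) * extP M.VP) *
        (extP (M.A (some q0) (lv N)) * extP M.VP) ^ k := pow_succ' _ _
    rw [pow_succ', Perm.mul_apply, ih, h]
    rfl

theorem eS_sq_true (k : ℕ) (w : List (ZL M p)) :
    ((eS M q0 p N ^ 2) ^ k) (.inr (.inl true) :: w) =
      .inr (.inl true) ::
        (((extP M.VP * extP (M.A (some q0) (lv N)) : Perm (List (ZL M p)))) ^ k) w := by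
  induction k with
  | zero => rfl
  | succ k ih =>
    have h : (extP M.VP * extP (M.A (some q0) (lv N)) : Perm (List (ZL M p))) ^ (k + 1) =
      (extP M.VP * extP (M.A (some q0) (lv N))) *
        (extP M.VP * extP (M.A (some q0) (lv N))) ^ k := pow_succ' _ _
    rw [pow_succ', Perm.mul_apply, ih, h]
    rfl

theorem extW : (extP (M.W (some q0) (lv N)) : Perm (List (ZL M p))) =
    extP M.VP * extP (M.A (some q0) (lv N)) := by
  unfold W
  rw [map_mul]

/-- finite order -/
theorem eS_finite (m : ℕ) (h : M.W (some q0) (lv N) ^ m = 1) : eS M q0 p N ^ (2 * m) = 1 := by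
  have h1 : ((extP M.VP : Perm (List (ZL M p))) * extP (M.A (some q0) (lv N))) ^ m = 1 := by
    rw [← extW, ← map_pow, h, map_one]
  have h2 : ((extP (M.A (some q0) (lv N)) : Perm (List (ZL M p))) * extP M.VP) ^ m = 1 := by
    have h3 : (extP (M.A (some q0) (lv N)) : Perm (List (ZL M p))) * extP M.VP =
      extP (M.A (some q0) (lv N)) * (extP M.VP * extP (M.A (some q0) (lv N))) *
        (extP (M.A (some q0) (lv N)))⁻¹ := by group
    rw [h3, conj_pow, h1]
    group
  rw [pow_mul]
  ext1 w
  rcases w with _ | ⟨x | (y | c), w⟩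
  · exact Perm.pow_apply_eq_self_of_apply_eq_self (f := eS M q0 p N ^ 2) rfl m
  · exact Perm.pow_apply_eq_self_of_apply_eq_self (f := eS M q0 p N ^ 2) rfl m
  · cases y
    · rw [eS_sq_false, h2]; rfl
    · rw [eS_sq_true, h1]; rfl
  · exact Perm.pow_apply_eq_self_of_apply_eq_self (f := eS M q0 p N ^ 2) rfl m

/-- infinite order -/
theorem eS_infinite (hl : 0 < M.l) (h : ¬ M.Halts (some q0) (ini N)) (k : ℕ) (hk : 0 < k) :
    eS M q0 p N ^ k ≠ 1 := by
  intro h1
  apply h
  refine M.halts_of_finite hl k (some q0) (ini N) hk ?_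
  rw [zz_ini]
  apply extP_injective (Y := YY p)
  rw [map_pow, extW, map_one]
  ext1 w
  have h2 := eS_sq_true M q0 p N k w
  rw [← pow_mul, mul_comm, pow_mul, h1, one_pow, Perm.one_apply] at h2
  exact (List.cons.inj h2).2.symm

theorem eZ_sq (k : ℕ) (w : List (ZL M p)) :
    ((eZ M q0 p N ^ 2) ^ k) (.inr (.inl false) :: w) =
      .inr (.inl false) :: (eZ M q0 p N ^ k) w := by
  induction k with
  | zero => rfl
  | succ k ih =>
    have h : eZ M q0 p N ^ (k + 1) = eZ M q0 p N * eZ M q0 p N ^ k := pow_succ' _ _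
    rw [pow_succ', Perm.mul_apply, ih, h]
    rfl

theorem eZ_infinite (k : ℕ) : 0 < k → eZ M q0 p N ^ k ≠ 1 := by
  induction k using Nat.strong_induction_on with
  | _ k ih =>
    intro hk h
    rcases Nat.even_or_odd' k with ⟨j, hj | hj⟩
    · subst hj
      refine ih j (by omega) (by omega) ?_
      ext1 w
      have h1 := eZ_sq M q0 p N j w
      rw [← pow_mul, h, Perm.one_apply] at h1
      exact (List.cons.inj h1).2.symm
    · subst hj
      have h1 := eZ_sq M q0 p N j []
      rw [← pow_mul] at h1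
      have h2 : (eZ M q0 p N ^ (2 * j + 1)) [.inr (.inl false)] = [.inr (.inl false)] := by
        rw [h, Perm.one_apply]
      rw [pow_succ', Perm.mul_apply, h1] at h2
      have h3 := (List.cons.inj h2).1
      simp at h3

end special

end Pool.Agent.H82R2.IsoP
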