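import Mathlib
import Pool.Agent.H82R2.IsoP.Struct

/-!
The dichotomies for the groups of the automata of the reduction.
-/

set_option autoImplicit false

namespace Pool.Agent.H82R2.IsoP

open Equiv Pool.Agent.Helper599.Core Pool.Agent.Helper599.Core.Sys Pool.Agent.Helper599.Source

theorem closure_bool {G : Type*} [Group G] (f : Bool → G) :
    Subgroup.closure (Set.range f) = Subgroup.zpowers (f false) ⊔ Subgroup.zpowers (f true) := by
  apply le_antisymm
  · rw [Subgroup.closure_le]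
    rintro _ ⟨b, rfl⟩
    cases b
    · exact Subgroup.mem_sup_left (Subgroup.mem_zpowers _)
    · exact Subgroup.mem_sup_right (Subgroup.mem_zpowers _)
  · refine sup_le ?_ ?_
    · rw [Subgroup.zpowers_le]
      exact Subgroup.subset_closure ⟨_, rfl⟩
    · rw [Subgroup.zpowers_le]
      exact Subgroup.subset_closure ⟨_, rfl⟩

/-- the special states of the four automata -/
def sA : Bool → Slot := fun b => if b then .one else .s
/-- the special states of the four automata -/
def sB : Bool → Slot := fun b => if b then .one else .z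
/-- the special states of the four automata -/
def sC : Bool → Slot := fun b => if b then .one else .se
/-- the special states of the four automata -/
def sD : Bool → Slot := fun b => if b then .e else .s

section dich

variable {Q : Type} (M : Sys Q Bool) (q0 : Q) (p : ℕ) (N : ℕ)

/-- the group of the states -/
noncomputable abbrev GG (σ : Bool → Slot) : Subgroup (Perm (List (ZL M p))) :=
  Subgroup.closure (Set.range (sem M q0 p σ N))

theorem GG_one (σ : Bool → Slot) (h : σ true = .one) :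
    GG M q0 p N σ = HH M p ⊔ Subgroup.zpowers (sl M q0 p N (σ false)) := by
  unfold GG
  rw [closure_sem, closure_bool, h]
  congr 1
  change _ ⊔ Subgroup.zpowers (1 : Perm (List (ZL M p))) = _
  rw [Subgroup.zpowers_one_eq_bot, sup_bot_eq]

theorem GG_iso (t : Slot) : Nonempty (↥(HH M p ⊔ Subgroup.zpowers (sl M q0 p N t)) ≃*
    ↥(HH M p) × ↥(Subgroup.zpowers (sl M q0 p N t))) :=
  prod_iso M p _ (by rw [Subgroup.zpowers_le]; exact sl_mem M q0 p N t)

theorem iso_z : Nonempty (GG M q0 p N sB ≃* ↥(HH M p) × Multiplicative ℤ) := by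
  rw [GG_one M q0 p N sB rfl]
  obtain ⟨e⟩ := GG_iso M q0 p N .z
  obtain ⟨f⟩ := zpowers_int (eZ M q0 p N) (fun k hk => eZ_infinite M q0 p N k hk)
  exact ⟨e.trans (MulEquiv.prodCongr (MulEquiv.refl _) f)⟩

/-- If the machine does not stop, the first automaton gives the fixed group. -/
theorem iso_A (hl : 0 < M.l) (h : ¬ M.Halts (some q0) (ini N)) (N' : ℕ) :
    Nonempty (GG M q0 p N sA ≃* GG M q0 p N' sB) := by
  obtain ⟨g⟩ := iso_z M q0 p N'
  rw [GG_one M q0 p N sA rfl]
  obtain ⟨e⟩ := GG_iso M q0 p N .s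
  obtain ⟨f⟩ := zpowers_int (eS M q0 p N) (fun k hk => eS_infinite M q0 p N hl h k hk)
  exact ⟨(e.trans (MulEquiv.prodCongr (MulEquiv.refl _) f)).trans g.symm⟩

/-- If the machine stops, it does not. -/
theorem not_iso_A [Finite Q] (h : M.Halts (some q0) (ini N)) (N' : ℕ) :
    ¬ Nonempty (GG M q0 p N sA ≃* GG M q0 p N' sB) := by
  rintro ⟨k⟩
  have := HH_fg M p
  obtain ⟨g⟩ := iso_z M q0 p N'
  have hG := GG_one M q0 p N sA rfl
  obtain ⟨e⟩ := GG_iso M q0 p N .s
  obtain ⟨m, hm, h1⟩ := M.finite_of_halts h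
  rw [zz_ini] at h1
  have h2 := eS_finite M q0 p N m h1
  have h3 : IsOfFinOrder (eS M q0 p N) := isOfFinOrder_iff_pow_eq_one.2 ⟨2 * m, by omega, h2⟩
  have : Finite (Subgroup.zpowers (eS M q0 p N)) := by
    apply Nat.finite_of_card_ne_zero
    rw [Nat.card_zpowers]
    exact h3.orderOf_pos.ne'
  apply not_iso_of_finite (HH M p) (Subgroup.zpowers (eS M q0 p N))
  exact ⟨(e.symm.trans ((MulEquiv.subgroupCongr hG).symm.trans k)).trans g⟩

theorem GG_D : GG M q0 p N sD = HH M p ⊔ (Subgroup.zpowers (eS M q0 p N) ⊔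
    Subgroup.zpowers (eE M q0 p N)) := by
  unfold GG
  rw [closure_sem, closure_bool]
  rfl

theorem GG_C : GG M q0 p N sC = HH M p ⊔ Subgroup.zpowers (eSE M q0 p N) :=
  GG_one M q0 p N sC rfl

/-- If the machine stops, the two groups are equal. -/
theorem eq_CD (h2p : Nat.Coprime 2 p) (hlp : Nat.Coprime (2 * M.l + 1) p)
    (h : M.Halts (some q0) (ini N)) : GG M q0 p N sC = GG M q0 p N sD := by
  obtain ⟨m, hm, hc, h1⟩ := finite_of_halts' M h p h2p hlp
  rw [zz_ini] at h1
  have h2 := eS_finite M q0 p N m h1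
  rw [GG_C, GG_D, eSE_eq]
  congr 1
  refine closure_coprime _ _ (eS_eE_disjoint M q0 p N).commute (2 * m) p h2 ?_
    (Nat.Coprime.mul_left h2p hc)
  rw [eE_pow_eq_one]
  simp

/-- If the machine does not stop, they are not isomorphic. -/
theorem not_iso_CD [Finite Q] (hp : 1 < p) (hl : 0 < M.l) (h : ¬ M.Halts (some q0) (ini N)) :
    ¬ Nonempty (GG M q0 p N sC ≃* GG M q0 p N sD) := by
  rintro ⟨k⟩
  have := HH_fg M p
  have hd := eS_eE_disjoint M q0 p N
  have hinf : ∀ k : ℕ, 0 < k → eSE M q0 p N ^ k ≠ 1 := by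
    intro k hk h1
    rw [eSE_eq, hd.commute.mul_pow, (hd.pow_disjoint_pow k k).mul_eq_one_iff] at h1
    exact eS_infinite M q0 p N hl h k hk h1.1
  obtain ⟨e1⟩ := GG_iso M q0 p N .se
  obtain ⟨f1⟩ := zpowers_int (eSE M q0 p N) hinf
  have e2 : Nonempty (↥(HH M p ⊔ (Subgroup.zpowers (eS M q0 p N) ⊔
      Subgroup.zpowers (eE M q0 p N))) ≃* ↥(HH M p) × ↥(Subgroup.zpowers (eS M q0 p N) ⊔
      Subgroup.zpowers (eE M q0 p N))) := by
    refine prod_iso M p _ (sup_le ?_ ?_)
    · rw [Subgroup.zpowers_le]; exact sl_mem M q0 p N _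
    · rw [Subgroup.zpowers_le]; exact sl_mem M q0 p N _
  obtain ⟨e2⟩ := e2
  have e3 : Nonempty (↥(Subgroup.zpowers (eS M q0 p N) ⊔ Subgroup.zpowers (eE M q0 p N)) ≃*
      ↥(Subgroup.zpowers (eS M q0 p N)) × ↥(Subgroup.zpowers (eE M q0 p N))) := by
    apply sup_equiv_prod
    · rintro _ ⟨a, rfl⟩ _ ⟨b, rfl⟩
      exact (hd.zpow_disjoint_zpow a b).commute
    · rintro _ ⟨a, rfl⟩ ⟨b, hb⟩
      simp only at hb
      have h1 := hd.zpow_disjoint_zpow a b
      rw [hb, Perm.disjoint_refl_iff] at h1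
      exact h1
  obtain ⟨e3⟩ := e3
  obtain ⟨f3⟩ := zpowers_int (eS M q0 p N) (fun k hk => eS_infinite M q0 p N hl h k hk)
  have hcard : Nat.card (Subgroup.zpowers (eE M q0 p N)) = p := by
    rw [Nat.card_zpowers, orderOf_eE]
  apply not_iso_of_cyclic (HH M p) (Subgroup.zpowers (eE M q0 p N)) hp hcard
  refine ⟨?_⟩
  have a1 : ↥(HH M p) × Multiplicative ℤ ≃* GG M q0 p N sC :=
    ((MulEquiv.subgroupCongr (GG_C M q0 p N)).trans
      (e1.trans (MulEquiv.prodCongr (MulEquiv.refl _) f1))).symm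
  have a2 : GG M q0 p N sD ≃* ↥(HH M p) × (Multiplicative ℤ × ↥(Subgroup.zpowers (eE M q0 p N))) :=
    (MulEquiv.subgroupCongr (GG_D M q0 p N)).trans
      (e2.trans (MulEquiv.prodCongr (MulEquiv.refl _)
        (e3.trans (MulEquiv.prodCongr f3 (MulEquiv.refl _)))))
  exact a1.trans (k.trans a2)

end dich

section numbering

variable {S Z : Type} (next : S → Z → S) (out : S → Perm Z)
  {m n : ℕ} (hn : 2 ≤ n) (hm : 0 < m) (eS : S ≃ Fin m) (eZ : Z ≃ Fin n)

/-- the automaton with numbered states and letters -/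
@[reducible] def mkA : Automaton where
  n := n
  m := m
  two_le := hn
  pos := hm
  next := fun q x => eS (next (eS.symm q) (eZ.symm x))
  out := fun q => eZ.permCongr (out (eS.symm q))

variable (sm : S → Perm (List Z)) (h0 : ∀ s, sm s [] = [])
  (h1 : ∀ s z w, sm s (z :: w) = out s z :: sm (next s z) w)

include h0 h1 in
theorem mkA_act (s : S) (w : List Z) :
    (mkA next out hn hm eS eZ).act (eS s) (w.map eZ) = (sm s w).map eZ := by
  induction w generalizing s with
  | nil => rw [h0]; rfl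
  | cons x w ih =>
    rw [h1, List.map_cons, List.map_cons, ← ih]
    show (eZ.permCongr (out (eS.symm (eS s)))) (eZ x) ::
      (mkA next out hn hm eS eZ).act (eS (next (eS.symm (eS s)) (eZ.symm (eZ x)))) (w.map eZ) = _
    rw [Equiv.symm_apply_apply, Equiv.symm_apply_apply, Equiv.permCongr_apply,
      Equiv.symm_apply_apply]

include h0 h1 in
theorem mkA_perm (s : S) : (mkA next out hn hm eS eZ).perm (eS s) =
    (Equiv.listEquivOfEquiv eZ).permCongrHom (sm s) := by
  ext1 w
  obtain ⟨w, rfl⟩ : ∃ v : List Z, w = v.map eZ := ⟨w.map eZ.symm, by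
    rw [List.map_map]
    have : (eZ : Z → Fin n) ∘ eZ.symm = id := by funext x; simp
    rw [this, List.map_id]⟩
  have h2 : (Equiv.listEquivOfEquiv eZ).permCongrHom (sm s) (w.map eZ) = (sm s w).map eZ := by
    show (Equiv.listEquivOfEquiv eZ) (sm s ((Equiv.listEquivOfEquiv eZ).symm (w.map eZ))) = _
    have h3 : (Equiv.listEquivOfEquiv eZ).symm (w.map eZ) = w :=
      (Equiv.listEquivOfEquiv eZ).symm_apply_apply w
    rw [h3]; rfl
  rw [h2]
  exact mkA_act next out hn hm eS eZ sm h0 h1 s w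

include h0 h1 in
theorem mkA_group : (mkA next out hn hm eS eZ).group =
    (Subgroup.closure (Set.range sm)).map
      ((Equiv.listEquivOfEquiv eZ).permCongrHom.toMonoidHom) := by
  unfold Automaton.group
  rw [MonoidHom.map_closure]
  congr 1
  ext f
  constructor
  · rintro ⟨q, rfl⟩
    have := mkA_perm next out hn hm eS eZ sm h0 h1 (eS.symm q)
    rw [Equiv.apply_symm_apply] at this
    rw [this]
    exact ⟨_, ⟨_, rfl⟩, rfl⟩
  · rintro ⟨_, ⟨s, rfl⟩, rfl⟩
    exact ⟨eS s, mkA_perm next out hn hm eS eZ sm h0 h1 s⟩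

include h0 h1 in
theorem mkA_iso : Nonempty ((mkA next out hn hm eS eZ).group ≃*
    ↥(Subgroup.closure (Set.range sm))) := by
  rw [mkA_group next out hn hm eS eZ sm h0 h1]
  exact ⟨((Equiv.listEquivOfEquiv eZ).permCongrHom.subgroupMap
    (Subgroup.closure (Set.range sm))).symm⟩

end numbering

end Pool.Agent.H82R2.IsoP
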