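import Mathlib
import Pool.Agent.H82R2.IsoP.Dich

/-!
The tables of the automata of the reduction are primitive recursive in the input.
-/

set_option autoImplicit false

namespace Pool.Agent.H82R2.IsoP

open Equiv Pool.Agent.Helper599.Core Pool.Agent.Helper599.Core.Sys Pool.Agent.Helper599.Source

section tables

variable {Q : Type} (M : Sys Q Bool) (q0 : Q) (p : ℕ) (σ : Bool → Slot) (N : ℕ)

instance finFx [Finite Q] : Finite (Fx Q) := by
  let f : Fx Q → (Bool → Fin 3) ⊕ Unit ⊕ (Option Q) ⊕ Unit ⊕ Bool := fun i =>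
    match i with
    | .t e => .inl e
    | .v => .inr (.inl ())
    | .u o => .inr (.inr (.inl o))
    | .a => .inr (.inr (.inr (.inl ())))
    | .x b => .inr (.inr (.inr (.inr b)))
  refine Finite.of_injective f ?_
  intro a b h
  cases a <;> cases b <;> simp_all [f]

variable {F d : ℕ} (eF : Fx Q ≃ Fin F) (eZ : ZL M p ≃ Fin d)

/-- numbering of the states -/
def enS : St Q N ≃ Fin (F + (2 * N + 3)) :=
  (Equiv.sumCongr eF (Equiv.refl _)).trans finSumFinEquiv

theorem enS_inl (f : Fx Q) : ((enS N eF (.inl f) : Fin (F + (2 * N + 3))) : ℕ) = eF f := by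
  simp [enS]

theorem enS_inr (k : Fin (2 * N + 3)) :
    ((enS N eF (.inr k) : Fin (F + (2 * N + 3))) : ℕ) = F + k := by
  simp [enS]

/-- entries of the fixed states -/
noncomputable def entF (f : Fx Q) (x : ZL M p) (N : ℕ) : ℕ × ℕ :=
  ((enS N eF (nxt M q0 p σ N (.inl f) x) : ℕ), (eZ (out M q0 p σ N (.inl f) x) : ℕ))

theorem enS_tr : ((enS N eF (tr N) : Fin (F + (2 * N + 3))) : ℕ) = eF (.t (en 0)) :=
  enS_inl N eF _

theorem idx_lv_iff (i r : Bool → Fin M.B) :
    idx M i (lv N) = r ↔ ((i true : ℕ) + N) % M.B = r true ∧ i false = r false := by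
  have h0 := (i false).2
  have e1 : ((idx M i (lv N) true : ℕ) : ℤ) = (((i true : ℕ) : ℤ) + N) % M.B := M.red_val _
  have e2 : idx M i (lv N) false = i false := by
    apply M.red_eq
    change (((i false : ℕ) : ℤ) + 0) % _ = _
    rw [add_zero]
    exact Int.emod_eq_of_lt (by omega) (by omega)
  have e3 : (idx M i (lv N) true : ℕ) = ((i true : ℕ) + N) % M.B := by
    have : ((idx M i (lv N) true : ℕ) : ℤ) = ((((i true : ℕ) + N) % M.B : ℕ) : ℤ) := by
      rw [e1]; push_cast; rfl
    exact_mod_cast this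
  constructor
  · rintro rfl
    exact ⟨e3.symm, e2.symm⟩
  · rintro ⟨h1, h2⟩
    funext j
    cases j
    · rw [e2, h2]
    · apply Fin.ext
      rw [e3, h1]

theorem ld_sign (i : Bool → Fin M.B) (s : ℤ) (hs : s = 0 ∨ s = 1 ∨ s = -1) :
    (ld N (s * kap M i (lv N) true) : ℕ) =
      if s = 0 then N + 1 else if s = 1 then ((i true : ℕ) + N) / M.B + (N + 1)
        else (N + 1) - ((i true : ℕ) + N) / M.B := by
  have hk := kap_lv_nonneg M N i
  have e : kap M i (lv N) true = ((((i true : ℕ) + N) / M.B : ℕ) : ℤ) := by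
    change (((i true : ℕ) : ℤ) + N) / (M.B : ℤ) = _
    push_cast; rfl
  have h1 : ((ld N (s * kap M i (lv N) true) : ℕ) : ℤ) = s * kap M i (lv N) true + (N + 1) := by
    apply ld_val
    · rcases hs with rfl | rfl | rfl <;> omega
    · rcases hs with rfl | rfl | rfl <;> omega
  rcases hs with rfl | rfl | rfl
  · rw [if_pos rfl]; omega
  · rw [if_neg (by norm_num), if_pos rfl]; omega
  · rw [if_neg (by norm_num), if_neg (by norm_num)]; omega

theorem rho_diff (q : Q) (r : Bool → Fin M.B) (c c' : Fin (2 * M.l + 1)) (j : Bool) :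
    M.rho q r c j - M.rho q r c' j = 0 ∨ M.rho q r c j - M.rho q r c' j = 1 ∨
      M.rho q r c j - M.rho q r c' j = -1 := by
  rcases rho_01 M q r c j with h | h <;> rcases rho_01 M q r c' j with h' | h' <;> rw [h, h'] <;>
    omega

open Classical in
theorem cond_primrec (x : M.X) :
    PrimrecPred (fun N : ℕ => x.1 = q0 ∧ idx M x.2.2.2 (lv N) = x.2.1) := by
  by_cases h1 : x.1 = q0 ∧ x.2.2.2 false = x.2.1 false
  · have h2 : PrimrecPred (fun N : ℕ => ((x.2.2.2 true : ℕ) + N) % M.B = (x.2.1 true : ℕ)) :=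
      Primrec.eq.comp (Primrec.nat_mod.comp (Primrec.nat_add.comp (Primrec.const _) Primrec.id)
        (Primrec.const _)) (Primrec.const _)
    refine h2.of_eq ?_
    intro N
    rw [idx_lv_iff]
    tauto
  · have h2 : PrimrecPred (fun _ : ℕ => False) := by
      have := Primrec.eq.comp (Primrec.const (α := ℕ) (0 : ℕ)) (Primrec.const (α := ℕ) (1 : ℕ))
      refine this.of_eq ?_
      intro N
      simp
    refine h2.of_eq ?_
    intro N
    rw [idx_lv_iff]
    tauto

theorem entF_primrec (f : Fx Q) (x : ZL M p) : Primrec (entF M q0 p σ eF eZ f x) := by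
  classical
  by_cases hfa : f = .a
  · subst hfa
    rcases x with x | y
    · have h1 : ∀ N, entF M q0 p σ eF eZ .a (.inl x) N =
          if x.1 = q0 ∧ idx M x.2.2.2 (lv N) = x.2.1 then
            (if (x.2.2.1 : ℕ) = M.l then (eF (.u (M.nxt x.1 x.2.1)) : ℕ) else
              F + (if M.rho x.1 x.2.1 x.2.2.1 true - M.rho x.1 x.2.1 x.2.2.1.rev true = 0 then
                N + 1 else if M.rho x.1 x.2.1 x.2.2.1 true - M.rho x.1 x.2.1 x.2.2.1.rev true = 1
                then ((x.2.2.2 true : ℕ) + N) / M.B + (N + 1)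
                else (N + 1) - ((x.2.2.2 true : ℕ) + N) / M.B),
              (eZ (.inl (x.1, x.2.1, x.2.2.1.rev, x.2.2.2)) : ℕ))
          else ((eF (.t (en 0)) : ℕ), (eZ (.inl x) : ℕ)) := by
        intro N
        have ho : out M q0 p σ N (.inl .a) (.inl x) = .inl (aX M q0 (lv N) x) := rfl
        unfold entF
        rw [ho]
        unfold aX
        simp only [nxt]
        split_ifs with h1 h2 h3 h4
        · rw [enS_inl]
        · rw [enS_inr, ld_sign M N _ _ (rho_diff M _ _ _ _ _), if_pos h3]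
        · rw [enS_inr, ld_sign M N _ _ (rho_diff M _ _ _ _ _), if_neg h3, if_pos h4]
        · rw [enS_inr, ld_sign M N _ _ (rho_diff M _ _ _ _ _), if_neg h3, if_neg h4]
        · rw [enS_tr]
      refine Primrec.of_eq ?_ (fun N => (h1 N).symm)
      refine Primrec.ite (cond_primrec M q0 x) ?_ (Primrec.const _)
      refine Primrec.pair ?_ (Primrec.const _)
      have hN : Primrec (fun N : ℕ => N + 1) := Primrec.succ
      have hd : Primrec (fun N : ℕ => ((x.2.2.2 true : ℕ) + N) / M.B) :=
        Primrec.nat_div.comp (Primrec.nat_add.comp (Primrec.const _) Primrec.id) (Primrec.const _)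
      split_ifs
      · exact Primrec.const _
      · exact Primrec.nat_add.comp (Primrec.const _) hN
      · exact Primrec.nat_add.comp (Primrec.const _) (Primrec.nat_add.comp hd hN)
      · exact Primrec.nat_add.comp (Primrec.const _) (Primrec.nat_sub.comp hN hd)
    · have h1 : ∀ N, entF M q0 p σ eF eZ .a (.inr y) N = ((eF (.t (en 0)) : ℕ), (eZ (.inr y) : ℕ)) := by
        intro N
        exact Prod.ext (enS_tr N eF) rfl
      exact (Primrec.const _).of_eq (fun N => (h1 N).symm)
  · have h1 : ∃ g : Fx Q, ∀ N, nxt M q0 p σ N (.inl f) x = .inl g := by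
      rcases f with e | _ | o | _ | b
      · rcases x with x | y
        · exact ⟨_, fun N => rfl⟩
        · exact ⟨_, fun N => rfl⟩
      · rcases x with x | y
        · by_cases h1 : ∀ j, (x.2.2.2 j : ℕ) = 0
          · by_cases h2 : (x.2.2.1 : ℕ) = 0
            · exact ⟨.v, fun N => by simp only [nxt, if_pos h1, if_pos h2]⟩
            · exact ⟨.t (en (M.sig x.1 x.2.1 x.2.2.1)), fun N => by
                simp only [nxt, if_pos h1, if_neg h2]⟩
          · exact ⟨.t (en 0), fun N => by simp only [nxt, if_neg h1]; rfl⟩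
        · exact ⟨_, fun N => rfl⟩
      · rcases x with x | y
        · cases o with
          | none => exact ⟨_, fun N => rfl⟩
          | some q =>
            by_cases h1 : x.1 = q ∧ x.2.2.2 = x.2.1
            · by_cases h2 : (x.2.2.1 : ℕ) = M.l
              · exact ⟨.u (M.nxt x.1 x.2.1), fun N => by simp only [nxt, if_pos h1, if_pos h2]⟩
              · exact ⟨.t (en 0), fun N => by simp only [nxt, if_pos h1, if_neg h2]; rfl⟩
            · exact ⟨.t (en 0), fun N => by simp only [nxt, if_neg h1]; rfl⟩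
        · cases o <;> exact ⟨.t (en 0), fun N => rfl⟩
      · exact absurd rfl hfa
      · rcases x with x | (y | c)
        · exact ⟨_, fun N => rfl⟩
        · cases hσ : σ b <;> cases y
          · exact ⟨.t (en 0), fun N => by simp only [nxt, hσ]; rfl⟩
          · exact ⟨.t (en 0), fun N => by simp only [nxt, hσ]; rfl⟩
          · exact ⟨.v, fun N => by simp only [nxt, hσ]; rfl⟩
          · exact ⟨.a, fun N => by simp only [nxt, hσ]; rfl⟩
          · exact ⟨.t (en 0), fun N => by simp only [nxt, hσ]; rfl⟩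
          · exact ⟨.x b, fun N => by simp only [nxt, hσ]; rfl⟩
          · exact ⟨.t (en 0), fun N => by simp only [nxt, hσ]; rfl⟩
          · exact ⟨.t (en 0), fun N => by simp only [nxt, hσ]; rfl⟩
          · exact ⟨.v, fun N => by simp only [nxt, hσ]; rfl⟩
          · exact ⟨.a, fun N => by simp only [nxt, hσ]; rfl⟩
        · exact ⟨_, fun N => rfl⟩
    have h2 : ∃ z : ZL M p, ∀ N, out M q0 p σ N (.inl f) x = z := by
      rcases f with e | _ | o | _ | b
      · exact ⟨_, fun N => rfl⟩
      · exact ⟨_, fun N => rfl⟩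
      · exact ⟨_, fun N => rfl⟩
      · exact absurd rfl hfa
      · exact ⟨_, fun N => rfl⟩
    obtain ⟨g, hg⟩ := h1
    obtain ⟨z, hz⟩ := h2
    refine (Primrec.const ((eF g : ℕ), (eZ z : ℕ))).of_eq ?_
    intro N
    unfold entF
    rw [hg, hz, enS_inl]

/-- the letter with another index -/
def upd (x : M.X) (t : Fin M.B) : M.X := (x.1, x.2.1, x.2.2.1, fun j => if j then t else x.2.2.2 j)

open Classical in
/-- entries of the long odometers -/
noncomputable def entL (x : ZL M p) (N k : ℕ) : ℕ × ℕ :=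
  match x with
  | .inl x => (if M.rho x.1 x.2.1 x.2.2.1 true = 1 then
      F + ((x.2.2.2 true : ℕ) + k + (M.B - 1) * (N + 1)) / M.B else F + (N + 1),
      (List.ofFn (fun t : Fin M.B => (eZ (.inl (upd M x t)) : ℕ))).getD
        (((x.2.2.2 true : ℕ) + k + (M.B - 1) * (N + 1)) % M.B) 0)
  | .inr y => ((eF (.t (en 0)) : ℕ), (eZ (.inr y) : ℕ))

theorem entL_primrec (x : ZL M p) :
    Primrec (fun a : ℕ × ℕ => entL M p eF eZ x a.1 a.2) := by
  rcases x with x | y
  · have h1 : Primrec (fun a : ℕ × ℕ => (x.2.2.2 true : ℕ) + a.2 + (M.B - 1) * (a.1 + 1)) :=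
      Primrec.nat_add.comp (Primrec.nat_add.comp (Primrec.const _) Primrec.snd)
        (Primrec.nat_mul.comp (Primrec.const _) (Primrec.succ.comp Primrec.fst))
    simp only [entL]
    refine Primrec.pair ?_ ?_
    · split_ifs
      · exact Primrec.nat_add.comp (Primrec.const _) (Primrec.nat_div.comp h1 (Primrec.const _))
      · exact Primrec.nat_add.comp (Primrec.const _) (Primrec.succ.comp Primrec.fst)
    · exact (Primrec.list_getD 0).comp (Primrec.const _) (Primrec.nat_mod.comp h1 (Primrec.const _))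
  · exact Primrec.const _

theorem entL_eq (x : ZL M p) (k : Fin (2 * N + 3)) :
    ((enS N eF (nxt M q0 p σ N (.inr k) x) : ℕ), (eZ (out M q0 p σ N (.inr k) x) : ℕ)) =
      entL M p eF eZ x N k := by
  have hB := M.hB
  rcases x with x | y
  · have hk := k.2
    have hx := (x.2.2.2 true).2
    set m : ℕ := (x.2.2.2 true : ℕ) + (k : ℕ) + (M.B - 1) * (N + 1) with hm
    have hmz : ((m : ℕ) : ℤ) = ((x.2.2.2 true : ℕ) : ℤ) + ((k : ℕ) : ℤ) + ((M.B : ℤ) - 1) * (N + 1) := by
      rw [hm]
      push_cast [Nat.cast_sub (show 1 ≤ M.B from hB)]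
      ring
    have e0 : ((x.2.2.2 true : ℕ) : ℤ) + (((k : ℕ) : ℤ) - (N + 1)) = m + M.B * (-(N + 1 : ℤ)) := by
      rw [hmz]; ring
    have ek : kap M x.2.2.2 (lv (((k : ℕ) : ℤ) - (N + 1))) true = ((m / M.B : ℕ) : ℤ) - (N + 1) := by
      change (((x.2.2.2 true : ℕ) : ℤ) + (((k : ℕ) : ℤ) - (N + 1))) / (M.B : ℤ) = _
      rw [e0, Int.add_mul_ediv_left _ _ (by omega)]
      push_cast
      ring
    have ei : idx M x.2.2.2 (lv (((k : ℕ) : ℤ) - (N + 1))) =
        fun j => if j then ⟨m % M.B, Nat.mod_lt _ hB⟩ else x.2.2.2 j := by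
      funext j
      cases j
      · have h0 := (x.2.2.2 false).2
        change M.red (((x.2.2.2 false : ℕ) : ℤ) + 0) = _
        apply M.red_eq
        rw [add_zero]
        exact Int.emod_eq_of_lt (by omega) (by simp)
      · change M.red (((x.2.2.2 true : ℕ) : ℤ) + (((k : ℕ) : ℤ) - (N + 1))) = _
        apply M.red_eq
        rw [e0, Int.add_mul_emod_self_left]
        simp
    have hk2 := kap_lv M N x.2.2.2 (((k : ℕ) : ℤ) - (N + 1)) (by omega) (by omega)
    refine Prod.ext ?_ ?_
    · change ((enS N eF (.inr (ld N (M.rho x.1 x.2.1 x.2.2.1 true *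
        kap M x.2.2.2 (lv (((k : ℕ) : ℤ) - (N + 1))) true))) : Fin _) : ℕ) =
        if M.rho x.1 x.2.1 x.2.2.1 true = 1 then F + m / M.B else F + (N + 1)
      rw [enS_inr]
      rcases rho_01 M x.1 x.2.1 x.2.2.1 true with h | h
      · rw [h, zero_mul, if_neg (by norm_num)]
        have := ld_val N 0 (by omega) (by omega)
        omega
      · rw [h, one_mul, if_pos rfl]
        have := ld_val N _ hk2.1 hk2.2
        rw [ek] at this ⊢
        omega
    · change (eZ (.inl (x.1, x.2.1, x.2.2.1, idx M x.2.2.2 (lv (((k : ℕ) : ℤ) - (N + 1))))) : ℕ) =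
        (List.ofFn (fun t : Fin M.B => (eZ (.inl (upd M x t)) : ℕ))).getD (m % M.B) 0
      rw [List.getD_eq_getElem _ _ (by rw [List.length_ofFn]; exact Nat.mod_lt _ hB),
        List.getElem_ofFn, ei]
      rfl
  · refine Prod.ext ?_ rfl
    exact enS_tr N eF

/-- entries -/
noncomputable def ent (x : Fin d) (a : ℕ × ℕ) : ℕ × ℕ :=
  if a.2 < F then (List.ofFn (fun f : Fin F =>
    entF M q0 p σ eF eZ (eF.symm f) (eZ.symm x) a.1)).getD a.2 (0, 0)
  else entL M p eF eZ (eZ.symm x) a.1 (a.2 - F)

theorem ent_primrec (x : Fin d) : Primrec (ent M q0 p σ eF eZ x) := by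
  unfold ent
  refine Primrec.ite (Primrec.nat_lt.comp Primrec.snd (Primrec.const F)) ?_ ?_
  · refine (Primrec.list_getD (0, 0)).comp (Primrec.list_ofFn fun f => ?_) Primrec.snd
    exact (entF_primrec M q0 p σ eF eZ _ _).comp Primrec.fst
  · exact (entL_primrec M p eF eZ (eZ.symm x)).comp
      (Primrec.pair Primrec.fst (Primrec.nat_sub.comp Primrec.snd (Primrec.const F)))

/-- the tables -/
noncomputable def tab (N : ℕ) : Tables :=
  (d, F + (2 * N + 3), (List.range (F + (2 * N + 3))).map
    (fun j => List.ofFn (fun x : Fin d => ent M q0 p σ eF eZ x (N, j))))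

theorem tab_primrec : Primrec (tab M q0 p σ eF eZ) := by
  have h : Primrec (fun N : ℕ => F + (2 * N + 3)) :=
    Primrec.nat_add.comp (Primrec.const F) (Primrec.nat_add.comp
      (Primrec.nat_mul.comp (Primrec.const 2) Primrec.id) (Primrec.const 3))
  unfold tab
  refine Primrec.pair (Primrec.const d) (Primrec.pair h (Primrec.list_map
    (Primrec.list_range.comp h) ?_))
  have h2 : Primrec (fun a : ℕ × ℕ => List.ofFn (fun x : Fin d => ent M q0 p σ eF eZ x a)) :=
    Primrec.list_ofFn fun x => ent_primrec M q0 p σ eF eZ x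
  exact h2.to₂

theorem ofFn_range {α : Type} (k : ℕ) (f : Fin k → α) (g : ℕ → α) (h : ∀ i : Fin k, f i = g i) :
    List.ofFn f = (List.range k).map g := by
  apply List.ext_getElem
  · simp
  · intro i h1 h2
    simp [h]

theorem tables_eq (hd : 2 ≤ d) (hk : 0 < F + (2 * N + 3)) :
    (mkA (nxt M q0 p σ N) (out M q0 p σ N) hd hk (enS N eF) eZ).tables =
      tab M q0 p σ eF eZ N := by
  unfold Automaton.tables tab
  show (d, F + (2 * N + 3), _) = _
  congr 2
  apply ofFn_range
  intro i
  obtain ⟨s, rfl⟩ := (enS N eF).surjective i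
  show (List.ofFn fun x : Fin d =>
    ((enS N eF (nxt M q0 p σ N ((enS N eF).symm (enS N eF s)) (eZ.symm x)) : ℕ),
      (eZ.permCongr (out M q0 p σ N ((enS N eF).symm (enS N eF s))) x : ℕ))) = _
  rw [Equiv.symm_apply_apply]
  congr 1
  funext x
  unfold ent
  rcases s with f | k
  · simp only
    rw [enS_inl, if_pos (eF f).2, List.getD_eq_getElem _ _ (by simp)]
    simp only [List.getElem_ofFn, Fin.eta, Equiv.symm_apply_apply]
    rfl
  · simp only
    rw [enS_inr, if_neg (by omega), Nat.add_sub_cancel_left, ← entL_eq M q0 p σ N eF eZ]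
    rfl

end tables

end Pool.Agent.H82R2.IsoP
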