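import Mathlib
import Pool.Agent.H82R2.IsoP.Tab

/-!
The isomorphism problem for automaton groups is neither recursively enumerable nor
co-recursively enumerable.
-/

set_option autoImplicit false

namespace Pool.Agent.H82R2.IsoP

open Equiv Pool.Agent.Helper599.Core Pool.Agent.Helper599.Core.Sys Pool.Agent.Helper599.Source

/-- Computable families of automata. -/
structure Fam (n : ℕ) where
  A : ℕ → Automaton
  hn : ∀ k, (A k).n = n
  comp : Computable (fun k => (A k).tables)

/-- The families of the reduction: isomorphism with a fixed automaton is equivalent to not halting,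
isomorphism of the last two families is equivalent to halting. -/
theorem exists_families : ∃ (n : ℕ) (FA FC FD : Fam n) (B : Automaton), B.n = n ∧
    (∀ k, Isomorphic (FA.A k) B ↔ ¬ (u k).Dom) ∧
    (∀ k, Isomorphic (FC.A k) (FD.A k) ↔ (u k).Dom) := by
  classical
  obtain ⟨Q, hQ, M, q0, N, hl, hN, hu⟩ := exists_sys3
  set p : ℕ := 4 * M.l + 3 with hp
  have hp1 : 1 < p := by omega
  have : NeZero p := ⟨by omega⟩
  have h2p : Nat.Coprime 2 p := by
    rw [Nat.coprime_two_left, hp]
    exact ⟨2 * M.l + 1, by ring⟩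
  have hlp : Nat.Coprime (2 * M.l + 1) p := by
    have e : p = 1 + (2 * M.l + 1) * 2 := by rw [hp]; ring
    rw [e, Nat.coprime_add_mul_left_right]
    exact Nat.coprime_one_right _
  have hfB : Nonempty (Fin M.B) := ⟨⟨0, M.hB⟩⟩
  set d := Nat.card (ZL M p) with hd0
  set F := Nat.card (Fx Q) with hF0
  have hZ : Nontrivial (ZL M p) := ⟨.inr (.inl true), .inr (.inl false), by simp⟩
  have hd : 2 ≤ d := Finite.one_lt_card
  let eF : Fx Q ≃ Fin F := Finite.equivFin _
  let eZ : ZL M p ≃ Fin d := Finite.equivFin _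
  have hk : ∀ n : ℕ, 0 < F + (2 * n + 3) := fun n => by omega
  let A : (Bool → Slot) → ℕ → Automaton := fun σ n =>
    mkA (nxt M q0 p σ n) (out M q0 p σ n) hd (hk n) (enS n eF) eZ
  have hiso : ∀ σ n, Nonempty ((A σ n).group ≃* GG M q0 p n σ) := by
    intro σ n
    refine mkA_iso (nxt M q0 p σ n) (out M q0 p σ n) hd (hk n) (enS n eF) eZ (sem M q0 p σ n) ?_
      (sem_cons M q0 p σ n)
    intro s
    rcases s with (e | _ | o | _ | b) | k
    · exact extP_nil _ (TP_nil M _)
    · exact extP_nil _ (VP_nil M)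
    · exact extP_nil _ (UP_nil M o)
    · exact extP_nil _ (A_nil M _ _)
    · show sl M q0 p n (σ b) [] = []
      cases σ b <;> rfl
    · exact extP_nil _ (TP_nil M _)
  have hcomp : ∀ σ, Computable (fun k => (A σ (N k)).tables) := by
    intro σ
    refine ((tab_primrec M q0 p σ eF eZ).to_comp.comp hN).of_eq ?_
    intro k
    exact (tables_eq M q0 p σ (N k) eF eZ hd (hk (N k))).symm
  let Fm : (Bool → Slot) → Fam d := fun σ => ⟨fun k => A σ (N k), fun _ => rfl, hcomp σ⟩
  have hcongr : ∀ σ τ m n, Isomorphic (A σ m) (A τ n) ↔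
      Nonempty (GG M q0 p m σ ≃* GG M q0 p n τ) := by
    intro σ τ m n
    obtain ⟨e⟩ := hiso σ m
    obtain ⟨f⟩ := hiso τ n
    constructor
    · rintro ⟨g⟩
      exact ⟨e.symm.trans (g.trans f)⟩
    · rintro ⟨g⟩
      exact ⟨e.trans (g.trans f.symm)⟩
  refine ⟨d, Fm sA, Fm sC, Fm sD, A sB 0, rfl, ?_, ?_⟩
  · intro k
    rw [← hu k]
    refine (hcongr sA sB (N k) 0).trans ?_
    constructor
    · intro h hh
      exact not_iso_A M q0 p (N k) hh 0 h
    · intro hh
      exact iso_A M q0 p (N k) hl hh 0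
  · intro k
    rw [← hu k]
    refine (hcongr sC sD (N k) (N k)).trans ?_
    constructor
    · intro h
      by_contra hh
      exact not_iso_CD M q0 p (N k) hp1 hl hh h
    · intro hh
      exact ⟨MulEquiv.subgroupCongr (eq_CD M q0 p (N k) h2p hlp hh)⟩

/-- The main theorem. -/
theorem main :
    (∀ f : Tables × Tables →. Bool, Partrec f → ∃ A B : Automaton,
      ¬ ∃ b ∈ f (A.tables, B.tables), (b = true ↔ Isomorphic A B)) ∧
    ∃ n : ℕ,
      (∃ B : Automaton, B.n = n ∧ ∀ f : Tables →. Unit, Partrec f →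
        ∃ A : Automaton, A.n = n ∧ ¬ ((f A.tables).Dom ↔ Isomorphic A B)) ∧
      (∀ f : Tables × Tables →. Unit, Partrec f → ∃ A B : Automaton, A.n = n ∧ B.n = n ∧
        ¬ ((f (A.tables, B.tables)).Dom ↔ ¬ Isomorphic A B)) := by
  classical
  obtain ⟨n, FA, FC, FD, B, hB, h1, h2⟩ := exists_families
  refine ⟨?_, n, ⟨B, hB, ?_⟩, ?_⟩
  · intro f hf
    by_contra hcon
    push Not at hcon
    apply u_not_computable
    have hex : ∀ k, ∃ b ∈ f ((FA.A k).tables, B.tables), (b = true ↔ Isomorphic (FA.A k) B) :=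
      fun k => hcon _ _
    choose g hg1 hg2 using hex
    have hgc : Computable g := by
      have h3 : Computable (fun k => ((FA.A k).tables, B.tables)) :=
        Computable.pair FA.comp (Computable.const _)
      exact Partrec.of_eq_tot (hf.comp h3) hg1
    refine ComputablePred.computable_iff.2 ⟨fun k => !(g k), Primrec.not.to_comp.comp hgc, ?_⟩
    funext k
    rw [eq_iff_iff]
    have h3 := (hg2 k).trans (h1 k)
    cases hgk : g k
    · rw [hgk] at h3
      simp only [Bool.false_eq_true, false_iff, not_not] at h3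
      simp [h3, hgk]
    · rw [hgk] at h3
      simp only [true_iff] at h3
      simp [h3, hgk]
  · intro f hf
    by_contra hcon
    push Not at hcon
    apply u_not_co_re
    have h3 : Partrec (fun k => f (FA.A k).tables) := hf.comp FA.comp
    refine h3.dom_re.of_eq fun k => ?_
    exact (hcon (FA.A k) (FA.hn k)).trans (h1 k)
  · intro f hf
    by_contra hcon
    push Not at hcon
    apply u_not_co_re
    have h3 : Partrec (fun k => f ((FC.A k).tables, (FD.A k).tables)) :=
      hf.comp (Computable.pair FC.comp FD.comp)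
    refine h3.dom_re.of_eq fun k => ?_
    exact (hcon (FC.A k) (FD.A k) (FC.hn k) (FD.hn k)).trans (not_congr (h2 k))

end Pool.Agent.H82R2.IsoP
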